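import Mathlib

set_option autoImplicit false
set_option linter.unusedSectionVars false


open Filter Topology

namespace Pool.Agent.Results.MP_3a09a4_co.SepContactLimit

section Chains

variable {E : Type*} [NormedAddCommGroup E] [InnerProductSpace ℝ E]

/-- contact separability in terms of centres -/
def CS (Z : Finset E) : Prop :=
  ∀ x ∈ Z, ∀ u : E, ‖u‖ = 1 → x + u ∈ Z → ∀ z ∈ Z, inner ℝ (z - x) u ≤ 0 ∨ 1 ≤ inner ℝ (z - x) u

lemma CS.mono {Z W : Finset E} (h : CS Z) (hW : W ⊆ Z) : CS W :=
  fun x hx u hu hxu z hz => h x (hW hx) u hu (hW hxu) z (hW hz)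

/-- y lies on the d-chain of x in Z -/
def Conn (Z : Finset E) (d x y : E) : Prop :=
  ∃ j : ℤ, y = x + j • d ∧ ∀ i : ℤ, (0 ≤ i ∧ i ≤ j ∨ j ≤ i ∧ i ≤ 0) → x + i • d ∈ Z

lemma Conn.refl {Z : Finset E} {d x : E} (hx : x ∈ Z) : Conn Z d x x := by
  refine ⟨0, by simp, fun i hi => ?_⟩
  have : i = 0 := by omega
  subst this; simpa using hx

lemma Conn.left_mem {Z : Finset E} {d x y : E} (h : Conn Z d x y) : x ∈ Z := by
  obtain ⟨j, -, hj⟩ := h
  have := hj 0 (by omega)
  simpa using this

lemma Conn.symm {Z : Finset E} {d x y : E} (h : Conn Z d x y) : Conn Z d y x := by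
  obtain ⟨j, rfl, hj⟩ := h
  refine ⟨-j, by simp, fun i hi => ?_⟩
  have := hj (j + i) (by omega)
  rwa [add_smul, ← add_assoc] at this

lemma Conn.right_mem {Z : Finset E} {d x y : E} (h : Conn Z d x y) : y ∈ Z := h.symm.left_mem

lemma Conn.trans {Z : Finset E} {d x y z : E} (h : Conn Z d x y) (h' : Conn Z d y z) :
    Conn Z d x z := by
  obtain ⟨j, rfl, hj⟩ := h
  obtain ⟨k, rfl, hk⟩ := h'
  refine ⟨j + k, by rw [add_smul, add_assoc], fun i hi => ?_⟩
  by_cases h1 : (0 ≤ i ∧ i ≤ j ∨ j ≤ i ∧ i ≤ 0)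
  · exact hj i h1
  · have := hk (i - j) (by omega)
    rwa [add_assoc, ← add_smul, add_sub_cancel] at this

open Classical in
/-- number of points on the d-chain of x in Z -/
noncomputable def len (Z : Finset E) (d x : E) : ℕ := (Z.filter (fun y => Conn Z d x y)).card

lemma one_le_len {Z : Finset E} {d x : E} (hx : x ∈ Z) : 1 ≤ len Z d x := by
  classical
  unfold len
  exact Finset.card_pos.mpr ⟨x, Finset.mem_filter.mpr ⟨hx, Conn.refl hx⟩⟩

lemma len_eq_of_conn {Z : Finset E} {d x y : E} (h : Conn Z d x y) : len Z d x = len Z d y := by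
  classical
  unfold len
  congr 1
  ext z
  simp only [Finset.mem_filter]
  exact ⟨fun hz => ⟨hz.1, h.symm.trans hz.2⟩, fun hz => ⟨hz.1, h.trans hz.2⟩⟩

open Classical in
/-- sum over a chain of 1/len is one -/
lemma sum_inv_len {Z : Finset E} {d y : E} (hy : y ∈ Z) :
    ∑ x ∈ Z.filter (fun x => Conn Z d y x), (1 : ℝ) / len Z d x = 1 := by
  have h1 : ∀ x ∈ Z.filter (fun x => Conn Z d y x), (1 : ℝ) / len Z d x = 1 / len Z d y := by
    intro x hx
    rw [len_eq_of_conn (Finset.mem_filter.mp hx).2]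
  rw [Finset.sum_congr rfl h1, Finset.sum_const]
  have h2 : (Z.filter (fun x => Conn Z d y x)).card = len Z d y := rfl
  have h3 : (0 : ℝ) < len Z d y := by exact_mod_cast one_le_len hy
  rw [h2, nsmul_eq_mul]
  field_simp

open Classical in
/-- the key double counting estimate -/
lemma logsum_step {Z Z1 : Finset E} (hZ : Z1 ⊆ Z) (hne : Z1.Nonempty) (d : E) :
    ∑ z ∈ Z1, Real.log (len Z d z) ≤
      ∑ z ∈ Z1, Real.log ((Z1.filter (fun y => Conn Z d z y)).card) +
        Z1.card * Real.log ((Z.card : ℝ) / Z1.card) := by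
  have hn1 : (0 : ℝ) < Z1.card := by exact_mod_cast hne.card_pos
  have hn : (0 : ℝ) < Z.card := by exact_mod_cast (hne.mono hZ).card_pos
  have hpos : ∀ z ∈ Z1, (0 : ℝ) < ((Z1.filter (fun y => Conn Z d z y)).card : ℝ) := by
    intro z hz
    exact_mod_cast Finset.card_pos.mpr ⟨z, Finset.mem_filter.mpr ⟨hz, Conn.refl (hZ hz)⟩⟩
  have hlen : ∀ z ∈ Z1, (0 : ℝ) < (len Z d z : ℝ) := by
    intro z hz
    exact_mod_cast one_le_len (hZ hz)
  -- pointwise
  have key : ∀ z ∈ Z1, Real.log (len Z d z) ≤
      Real.log ((Z1.filter (fun y => Conn Z d z y)).card) + Real.log ((Z.card : ℝ) / Z1.card)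
        + ((len Z d z : ℝ) / ((Z1.filter (fun y => Conn Z d z y)).card) * (Z1.card / Z.card) - 1) := by
    intro z hz
    have h1 := hpos z hz
    have h2 := hlen z hz
    set a : ℝ := ((Z1.filter (fun y => Conn Z d z y)).card : ℝ)
    set b : ℝ := (len Z d z : ℝ)
    have h3 : Real.log (b / a * (Z1.card / Z.card)) ≤ b / a * (Z1.card / Z.card) - 1 :=
      Real.log_le_sub_one_of_pos (by positivity)
    have h4 : Real.log (b / a * (Z1.card / Z.card)) =
        Real.log b - Real.log a - Real.log ((Z.card : ℝ) / Z1.card) := by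
      rw [Real.log_mul (by positivity) (by positivity), Real.log_div h2.ne' h1.ne',
        Real.log_div hn1.ne' hn.ne', Real.log_div hn.ne' hn1.ne']
      ring
    linarith
  have hsum : ∑ z ∈ Z1, (len Z d z : ℝ) / ((Z1.filter (fun y => Conn Z d z y)).card) ≤ Z.card := by
    have e1 : ∀ z ∈ Z1, (len Z d z : ℝ) / ((Z1.filter (fun y => Conn Z d z y)).card) =
        ∑ w ∈ Z, if Conn Z d z w then (1 : ℝ) / ((Z1.filter (fun y => Conn Z d z y)).card) else 0 := by
      intro z hz
      rw [← Finset.sum_filter, Finset.sum_const, nsmul_eq_mul]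
      have : (Z.filter (fun y => Conn Z d z y)).card = len Z d z := rfl
      rw [this]; ring
    rw [Finset.sum_congr rfl e1, Finset.sum_comm]
    have e2 : ∀ w ∈ Z, (∑ z ∈ Z1, if Conn Z d z w then
        (1 : ℝ) / ((Z1.filter (fun y => Conn Z d z y)).card) else 0) ≤ 1 := by
      intro w hw
      rw [← Finset.sum_filter]
      have e3 : ∀ z ∈ Z1.filter (fun z => Conn Z d z w),
          (1 : ℝ) / ((Z1.filter (fun y => Conn Z d z y)).card) =
          1 / ((Z1.filter (fun z => Conn Z d z w)).card) := by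
        intro z hz
        have hz2 := (Finset.mem_filter.mp hz).2
        have : Z1.filter (fun y => Conn Z d z y) = Z1.filter (fun z => Conn Z d z w) := by
          ext v
          simp only [Finset.mem_filter]
          exact ⟨fun h => ⟨h.1, h.2.symm.trans hz2⟩, fun h => ⟨h.1, hz2.trans h.2.symm⟩⟩
        rw [this]
      rw [Finset.sum_congr rfl e3, Finset.sum_const, nsmul_eq_mul]
      by_cases h0 : ((Z1.filter (fun z => Conn Z d z w)).card : ℝ) = 0
      · rw [h0]; norm_num
      · rw [mul_one_div, div_self h0]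
    calc _ ≤ ∑ w ∈ Z, (1 : ℝ) := Finset.sum_le_sum e2
      _ = Z.card := by simp
  calc ∑ z ∈ Z1, Real.log (len Z d z)
      ≤ ∑ z ∈ Z1, (Real.log ((Z1.filter (fun y => Conn Z d z y)).card) +
          Real.log ((Z.card : ℝ) / Z1.card)
        + ((len Z d z : ℝ) / ((Z1.filter (fun y => Conn Z d z y)).card) * (Z1.card / Z.card) - 1)) :=
        Finset.sum_le_sum key
    _ = ∑ z ∈ Z1, Real.log ((Z1.filter (fun y => Conn Z d z y)).card) +
        Z1.card * Real.log ((Z.card : ℝ) / Z1.card) +
        ((∑ z ∈ Z1, (len Z d z : ℝ) / ((Z1.filter (fun y => Conn Z d z y)).card)) *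
          (Z1.card / Z.card) - Z1.card) := by
        rw [Finset.sum_add_distrib, Finset.sum_add_distrib, Finset.sum_sub_distrib,
          Finset.sum_mul]
        simp
    _ ≤ _ := by
        have : (∑ z ∈ Z1, (len Z d z : ℝ) / ((Z1.filter (fun y => Conn Z d z y)).card)) *
          (Z1.card / Z.card) ≤ Z.card * (Z1.card / Z.card) :=
          mul_le_mul_of_nonneg_right hsum (by positivity)
        have h5 : (Z.card : ℝ) * (Z1.card / Z.card) = Z1.card := by field_simp
        linarith


lemma eq_of_one_le_inner {e d : E} (he : ‖e‖ = 1) (hd : ‖d‖ = 1) (h : 1 ≤ inner ℝ e d) : e = d := by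
  have h1 : inner ℝ e d ≤ 1 := by
    have := real_inner_le_norm e d
    rw [he, hd] at this; linarith
  exact (inner_eq_one_iff_of_norm_eq_one he hd).mp (le_antisymm h1 h)

lemma eq_neg_of_inner_le {e d : E} (he : ‖e‖ = 1) (hd : ‖d‖ = 1) (h : inner ℝ e d ≤ -1) : e = -d := by
  apply eq_of_one_le_inner he (by rw [norm_neg, hd])
  rw [inner_neg_right]; linarith

lemma Conn.restrict {Z W : Finset E} {e x y : E}
    (hcl : ∀ p, p ∈ Z → p + e ∈ Z → (p ∈ W ↔ p + e ∈ W)) (hx : x ∈ W)
    (h : Conn Z e x y) : Conn W e x y := by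
  obtain ⟨j, rfl, hj⟩ := h
  refine ⟨j, rfl, ?_⟩
  have hpos : ∀ m : ℕ, (m : ℤ) ≤ j → x + (m : ℤ) • e ∈ W := by
    intro m
    induction m with
    | zero => intro _; simpa using hx
    | succ m ih =>
      intro hm
      have h1 := ih (by push_cast at hm; omega)
      have h2 := hj (m : ℤ) (by push_cast at hm; omega)
      have h3 := hj ((m : ℤ) + 1) (by push_cast at hm; omega)
      have h4 : x + ((m : ℤ) + 1) • e = (x + (m : ℤ) • e) + e := by
        rw [add_smul, one_smul, add_assoc]
      rw [h4] at h3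
      push_cast
      rw [h4]
      exact (hcl _ h2 h3).mp h1
  have hneg : ∀ m : ℕ, j ≤ -(m : ℤ) → x + (-(m : ℤ)) • e ∈ W := by
    intro m
    induction m with
    | zero => intro _; simpa using hx
    | succ m ih =>
      intro hm
      have h1 := ih (by push_cast at hm; omega)
      have h2 := hj (-(m : ℤ)) (by push_cast at hm; omega)
      have h3 := hj (-((m : ℤ) + 1)) (by push_cast at hm; omega)
      have h4 : x + (-(m : ℤ)) • e = (x + (-((m : ℤ) + 1)) • e) + e := by
        rw [add_assoc]
        congr 1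
        rw [neg_add, add_smul, neg_smul, neg_smul, one_smul]; abel
      rw [h4] at h2 h1
      push_cast
      exact (hcl _ h3 h2).mpr h1
  intro i hi
  rcases hi with ⟨h0, h1⟩ | ⟨h0, h1⟩
  · have := hpos i.toNat (by omega)
    rwa [Int.toNat_of_nonneg h0] at this
  · have := hneg (-i).toNat (by omega)
    have h5 : ((-i).toNat : ℤ) = -i := Int.toNat_of_nonneg (by omega)
    rw [h5] at this
    simpa using this

lemma len_eq_one {Z : Finset E} {d x : E} (hx : x ∈ Z) (h1 : x + d ∉ Z) (h2 : x - d ∉ Z) :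
    len Z d x = 1 := by
  classical
  unfold len
  rw [Finset.card_eq_one]
  refine ⟨x, ?_⟩
  ext y
  simp only [Finset.mem_filter, Finset.mem_singleton]
  constructor
  · rintro ⟨-, j, rfl, hj⟩
    rcases lt_trichotomy j 0 with h | h | h
    · exfalso; apply h2
      have := hj (-1) (by omega)
      simpa [sub_eq_add_neg] using this
    · subst h; simp
    · exfalso; apply h1
      have := hj 1 (by omega)
      simpa using this
  · rintro rfl
    exact ⟨hx, Conn.refl hx⟩

lemma inner_chain {x x0 d : E} (hd : ‖d‖ = 1) (i : ℤ) :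
    inner ℝ (x + i • d - x0) d = inner ℝ (x - x0) d + i := by
  have : x + i • d - x0 = (x - x0) + (i : ℝ) • d := by
    rw [Int.cast_smul_eq_zsmul]; abel
  rw [this, inner_add_left, real_inner_smul_left, real_inner_self_eq_norm_sq, hd]; ring

open Classical in
theorem logsum (D : Finset E) (hD : ∀ d ∈ D, ‖d‖ = 1) (hD2 : ∀ d ∈ D, -d ∉ D) :
    ∀ (n : ℕ) (Z : Finset E), Z.card = n → CS Z →
      ∑ d ∈ D, ∑ z ∈ Z, Real.log (len Z d z) ≤ Z.card * Real.log Z.card := by
  intro n
  induction n using Nat.strong_induction_on with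
  | _ n IH =>
    intro Z hZn hZ
    by_cases hex : ∃ x ∈ Z, ∃ d ∈ D, x + d ∈ Z
    · obtain ⟨x0, hx0, d0, hd0, hxd0⟩ := hex
      have hcs := hZ x0 hx0 d0 (hD d0 hd0) hxd0
      have hd0n := hD d0 hd0
      set Z1 := Z.filter (fun z => inner ℝ (z - x0) d0 ≤ 0) with hZ1
      set Z2 := Z.filter (fun z => 1 ≤ inner ℝ (z - x0) d0) with hZ2
      have hx1 : x0 ∈ Z1 := by
        rw [hZ1, Finset.mem_filter]; exact ⟨hx0, by simp⟩
      have hx2 : x0 + d0 ∈ Z2 := by
        rw [hZ2, Finset.mem_filter]; refine ⟨hxd0, ?_⟩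
        rw [add_sub_cancel_left, real_inner_self_eq_norm_sq, hd0n]; norm_num
      have hdisj : Disjoint Z1 Z2 := by
        rw [Finset.disjoint_left]
        intro a ha hb
        rw [hZ1, Finset.mem_filter] at ha
        rw [hZ2, Finset.mem_filter] at hb
        linarith [ha.2, hb.2]
      have hunion : Z1 ∪ Z2 = Z := by
        ext z
        rw [Finset.mem_union, hZ1, hZ2, Finset.mem_filter, Finset.mem_filter]
        constructor
        · rintro (h | h)
          · exact h.1
          · exact h.1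
        · intro h
          rcases hcs z h with h' | h'
          · exact Or.inl ⟨h, h'⟩
          · exact Or.inr ⟨h, h'⟩
      have hsub1 : Z1 ⊆ Z := Finset.filter_subset _ _
      have hsub2 : Z2 ⊆ Z := Finset.filter_subset _ _
      have hcard : Z1.card + Z2.card = Z.card := by
        rw [← Finset.card_union_of_disjoint hdisj, hunion]
      have hc1 : 0 < Z1.card := Finset.card_pos.mpr ⟨_, hx1⟩
      have hc2 : 0 < Z2.card := Finset.card_pos.mpr ⟨_, hx2⟩
      -- crossing
      have cross1 : ∀ e ∈ D, e ≠ d0 → ∀ p, p ∈ Z → p + e ∈ Z → (p ∈ Z1 ↔ p + e ∈ Z1) := by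
        intro e he hne p hp hpe
        have hadd : inner ℝ (p + e - x0) d0 = inner ℝ (p - x0) d0 + inner ℝ e d0 := by
          rw [← inner_add_left]; congr 1; abel
        rw [hZ1, Finset.mem_filter, Finset.mem_filter]
        constructor
        · rintro ⟨-, h⟩
          refine ⟨hpe, ?_⟩
          rcases hcs _ hpe with h' | h'
          · exact h'
          · exfalso
            exact hne (eq_of_one_le_inner (hD e he) hd0n (by linarith))
        · rintro ⟨-, h⟩
          refine ⟨hp, ?_⟩
          rcases hcs _ hp with h' | h'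
          · exact h'
          · exfalso
            have : e = -d0 := eq_neg_of_inner_le (hD e he) hd0n (by linarith)
            exact hD2 d0 hd0 (this ▸ he)
      have cross2 : ∀ e ∈ D, e ≠ d0 → ∀ p, p ∈ Z → p + e ∈ Z → (p ∈ Z2 ↔ p + e ∈ Z2) := by
        intro e he hne p hp hpe
        have h1 := cross1 e he hne p hp hpe
        have h2 : ∀ q ∈ Z, (q ∈ Z2 ↔ q ∉ Z1) := by
          intro q hq
          rw [← hunion, Finset.mem_union] at hq
          constructor
          · intro h h'; exact Finset.disjoint_left.mp hdisj h' h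
          · intro h; exact hq.resolve_left h
        rw [h2 p hp, h2 _ hpe, h1]
      have conv1 : ∀ z ∈ Z1, ∀ w ∈ Z1, Conn Z d0 z w → Conn Z1 d0 z w := by
        rintro z hz w hw ⟨j, rfl, hj⟩
        refine ⟨j, rfl, fun i hi => ?_⟩
        rw [hZ1, Finset.mem_filter] at hz hw ⊢
        refine ⟨hj i hi, ?_⟩
        have a1 := hz.2
        have a2 := hw.2
        rw [inner_chain hd0n] at a2 ⊢
        rcases hi with ⟨h0, h1⟩ | ⟨h0, h1⟩
        · have : (i : ℝ) ≤ j := by exact_mod_cast h1
          linarith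
        · have : (i : ℝ) ≤ 0 := by exact_mod_cast h1
          linarith
      have conv2 : ∀ z ∈ Z2, ∀ w ∈ Z2, Conn Z d0 z w → Conn Z2 d0 z w := by
        rintro z hz w hw ⟨j, rfl, hj⟩
        refine ⟨j, rfl, fun i hi => ?_⟩
        rw [hZ2, Finset.mem_filter] at hz hw ⊢
        refine ⟨hj i hi, ?_⟩
        have a1 := hz.2
        have a2 := hw.2
        rw [inner_chain hd0n] at a2 ⊢
        rcases hi with ⟨h0, h1⟩ | ⟨h0, h1⟩
        · have : (0 : ℝ) ≤ i := by exact_mod_cast h0
          linarith
        · have : (j : ℝ) ≤ i := by exact_mod_cast h0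
          linarith
      -- main estimate for a part
      have main : ∀ W : Finset E, W ⊆ Z → W.Nonempty →
          (∀ e ∈ D, e ≠ d0 → ∀ p, p ∈ Z → p + e ∈ Z → (p ∈ W ↔ p + e ∈ W)) →
          (∀ z ∈ W, ∀ w ∈ W, Conn Z d0 z w → Conn W d0 z w) →
          ∑ d ∈ D, ∑ z ∈ W, Real.log (len Z d z) ≤
            ∑ d ∈ D, ∑ z ∈ W, Real.log (len W d z) +
              W.card * Real.log ((Z.card : ℝ) / W.card) := by
        intro W hWZ hWne hcr hconv
        rw [← Finset.add_sum_erase D _ hd0, ← Finset.add_sum_erase D _ hd0]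
        have t1 : ∑ z ∈ W, Real.log (len Z d0 z) ≤ ∑ z ∈ W, Real.log (len W d0 z) +
            W.card * Real.log ((Z.card : ℝ) / W.card) := by
          refine (logsum_step hWZ hWne d0).trans ?_
          gcongr with z hz
          · exact_mod_cast Finset.card_pos.mpr ⟨z, Finset.mem_filter.mpr ⟨hz, Conn.refl (hWZ hz)⟩⟩
          · unfold len
            apply Finset.card_le_card
            intro w hw
            rw [Finset.mem_filter] at hw ⊢
            exact ⟨hw.1, hconv z hz w hw.1 hw.2⟩
        have t2 : ∑ d ∈ D.erase d0, ∑ z ∈ W, Real.log (len Z d z) ≤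
            ∑ d ∈ D.erase d0, ∑ z ∈ W, Real.log (len W d z) := by
          apply Finset.sum_le_sum
          intro e he
          rw [Finset.mem_erase] at he
          apply Finset.sum_le_sum
          intro z hz
          apply Real.log_le_log
          · exact_mod_cast one_le_len (hWZ hz)
          · have : len Z e z ≤ len W e z := by
              unfold len
              apply Finset.card_le_card
              intro w hw
              rw [Finset.mem_filter] at hw ⊢
              have := Conn.restrict (hcr e he.2 he.1) hz hw.2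
              exact ⟨this.right_mem, this⟩
            exact_mod_cast this
        linarith
      have m1 := main Z1 hsub1 ⟨_, hx1⟩ cross1 conv1
      have m2 := main Z2 hsub2 ⟨_, hx2⟩ cross2 conv2
      have i1 := IH Z1.card (by omega) Z1 rfl (hZ.mono hsub1)
      have i2 := IH Z2.card (by omega) Z2 rfl (hZ.mono hsub2)
      have hsplit : ∑ d ∈ D, ∑ z ∈ Z, Real.log (len Z d z) =
          ∑ d ∈ D, ∑ z ∈ Z1, Real.log (len Z d z) + ∑ d ∈ D, ∑ z ∈ Z2, Real.log (len Z d z) := by
        rw [← Finset.sum_add_distrib]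
        apply Finset.sum_congr rfl
        intro d _
        rw [← Finset.sum_union hdisj, hunion]
      have hn : (0 : ℝ) < Z.card := by
        have : 0 < Z.card := by omega
        exact_mod_cast this
      have hn1 : (0 : ℝ) < Z1.card := by exact_mod_cast hc1
      have hn2 : (0 : ℝ) < Z2.card := by exact_mod_cast hc2
      have l1 : Real.log ((Z.card : ℝ) / Z1.card) = Real.log Z.card - Real.log Z1.card :=
        Real.log_div hn.ne' hn1.ne'
      have l2 : Real.log ((Z.card : ℝ) / Z2.card) = Real.log Z.card - Real.log Z2.card :=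
        Real.log_div hn.ne' hn2.ne'
      have hcr : (Z1.card : ℝ) + Z2.card = Z.card := by exact_mod_cast hcard
      rw [hsplit]
      calc _ ≤ (∑ d ∈ D, ∑ z ∈ Z1, Real.log (len Z1 d z) +
              Z1.card * Real.log ((Z.card : ℝ) / Z1.card)) +
              (∑ d ∈ D, ∑ z ∈ Z2, Real.log (len Z2 d z) +
              Z2.card * Real.log ((Z.card : ℝ) / Z2.card)) := add_le_add m1 m2
        _ ≤ (Z1.card * Real.log Z1.card + Z1.card * (Real.log Z.card - Real.log Z1.card)) +
            (Z2.card * Real.log Z2.card + Z2.card * (Real.log Z.card - Real.log Z2.card)) := by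
            rw [l1, l2]; linarith
        _ = (Z1.card + Z2.card) * Real.log Z.card := by ring
        _ = Z.card * Real.log Z.card := by rw [hcr]
    · push Not at hex
      have hz : ∑ d ∈ D, ∑ z ∈ Z, Real.log (len Z d z) = 0 := by
        apply Finset.sum_eq_zero
        intro d hd
        apply Finset.sum_eq_zero
        intro z hz
        have : len Z d z = 1 := by
          apply len_eq_one hz (hex z hz d hd)
          intro h
          have := hex _ h d hd
          rw [sub_add_cancel] at this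
          exact this hz
        rw [this]; simp
      rw [hz]
      rcases Nat.eq_zero_or_pos Z.card with h | h
      · rw [h]; simp
      · have : (1 : ℝ) ≤ Z.card := by exact_mod_cast h
        have := Real.log_nonneg this
        positivity


lemma exists_top {X : Finset E} {d x : E} (hd : ‖d‖ = 1) (hx : x ∈ X) :
    ∃ t ∈ X, Conn X d x t ∧ t + d ∉ X := by
  classical
  have hne : (X.filter (fun y => Conn X d x y)).Nonempty :=
    ⟨x, Finset.mem_filter.mpr ⟨hx, Conn.refl hx⟩⟩
  obtain ⟨t, ht, hmax⟩ := Finset.exists_max_image _ (fun y => inner ℝ y d) hne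
  rw [Finset.mem_filter] at ht
  refine ⟨t, ht.1, ht.2, fun h => ?_⟩
  have hc : Conn X d t (t + d) := by
    refine ⟨1, by simp, fun i hi => ?_⟩
    have : i = 0 ∨ i = 1 := by omega
    rcases this with rfl | rfl
    · simpa using ht.1
    · simpa using h
  have := hmax (t + d) (Finset.mem_filter.mpr ⟨h, ht.2.trans hc⟩)
  rw [inner_add_left, real_inner_self_eq_norm_sq, hd] at this
  linarith

lemma top_unique {X : Finset E} {d s t : E} (h : Conn X d s t) (hs : s + d ∉ X)
    (ht : t + d ∉ X) : s = t := by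
  obtain ⟨j, rfl, hj⟩ := h
  rcases lt_trichotomy j 0 with h | h | h
  · exfalso; apply ht
    have := hj (j + 1) (by omega)
    rwa [add_smul, one_smul, ← add_assoc] at this
  · subst h; simp
  · exfalso; apply hs
    have := hj 1 (by omega)
    simpa using this

lemma bot_unique {X : Finset E} {d s t : E} (h : Conn X d s t) (hs : s - d ∉ X)
    (ht : t - d ∉ X) : s = t := by
  obtain ⟨j, rfl, hj⟩ := h
  rcases lt_trichotomy j 0 with h | h | h
  · exfalso; apply hs
    have := hj (-1) (by omega)
    simpa [sub_eq_add_neg] using this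
  · subst h; simp
  · exfalso; apply ht
    have := hj (j - 1) (by omega)
    rwa [sub_smul, one_smul, ← add_sub_assoc] at this

open Classical in
/-- number of contacts in direction d -/
lemma contacts_le {X : Finset E} {d : E} (hd : ‖d‖ = 1) :
    ((X.filter (fun x => x + d ∈ X)).card : ℝ) ≤ ∑ x ∈ X, (1 - 1 / (len X d x : ℝ)) := by
  have h1 : ∑ x ∈ X, 1 / (len X d x : ℝ) ≤ ((X.filter (fun x => x + d ∉ X)).card : ℝ) := by
    calc ∑ x ∈ X, 1 / (len X d x : ℝ)
        ≤ ∑ x ∈ X, ∑ t ∈ X.filter (fun x => x + d ∉ X),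
            if Conn X d x t then 1 / (len X d x : ℝ) else 0 := by
          apply Finset.sum_le_sum
          intro x hx
          obtain ⟨t, ht, hc, hn⟩ := exists_top hd hx
          have hmem : t ∈ X.filter (fun x => x + d ∉ X) := Finset.mem_filter.mpr ⟨ht, hn⟩
          have : (if Conn X d x t then 1 / (len X d x : ℝ) else 0) ≤
              ∑ t ∈ X.filter (fun x => x + d ∉ X),
            if Conn X d x t then 1 / (len X d x : ℝ) else 0 :=
            Finset.single_le_sum (f := fun t => if Conn X d x t then 1 / (len X d x : ℝ) else 0)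
              (fun i _ => by split_ifs <;> positivity) hmem
          rwa [if_pos hc] at this
      _ = ∑ t ∈ X.filter (fun x => x + d ∉ X), ∑ x ∈ X,
            if Conn X d x t then 1 / (len X d x : ℝ) else 0 := Finset.sum_comm
      _ = ∑ t ∈ X.filter (fun x => x + d ∉ X), (1 : ℝ) := by
          apply Finset.sum_congr rfl
          intro t ht
          rw [Finset.mem_filter] at ht
          rw [← Finset.sum_filter]
          refine Eq.trans (Finset.sum_congr ?_ (fun _ _ => rfl)) (sum_inv_len (d := d) ht.1)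
          ext x
          simp only [Finset.mem_filter]
          exact ⟨fun h => ⟨h.1, h.2.symm⟩, fun h => ⟨h.1, h.2.symm⟩⟩
      _ = _ := by simp
  have h2 : (X.filter (fun x => x + d ∈ X)).card + (X.filter (fun x => x + d ∉ X)).card = X.card :=
    Finset.card_filter_add_card_filter_not (fun x => x + d ∈ X)
  have h3 : ((X.filter (fun x => x + d ∈ X)).card : ℝ) + (X.filter (fun x => x + d ∉ X)).card
      = X.card := by exact_mod_cast h2
  rw [Finset.sum_sub_distrib]
  simp only [Finset.sum_const, nsmul_eq_mul, mul_one]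
  linarith

open Classical in
/-- lines through x -/
noncomputable def K (X D : Finset E) (x : E) : Finset E := D.filter (fun d => x + d ∈ X ∨ x - d ∈ X)

open Classical in
/-- lines along which x has both neighbours -/
noncomputable def Q (X D : Finset E) (x : E) : Finset E := D.filter (fun d => x + d ∈ X ∧ x - d ∈ X)

lemma Q_subset_K (X D : Finset E) (x : E) : Q X D x ⊆ K X D x := by
  classical
  intro d hd
  unfold Q at hd; unfold K
  rw [Finset.mem_filter] at hd ⊢
  exact ⟨hd.1, Or.inl hd.2.1⟩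

lemma mem_K {X D : Finset E} {x d : E} : d ∈ K X D x ↔ d ∈ D ∧ (x + d ∈ X ∨ x - d ∈ X) := by
  classical
  unfold K
  exact Finset.mem_filter

lemma mem_Q {X D : Finset E} {x d : E} : d ∈ Q X D x ↔ d ∈ D ∧ (x + d ∈ X ∧ x - d ∈ X) := by
  classical
  unfold Q
  exact Finset.mem_filter

open Classical in
/-- total number of contacts -/
noncomputable def cn (X D : Finset E) : ℕ := ∑ d ∈ D, (X.filter (fun x => x + d ∈ X)).card

lemma sum_deg (X D : Finset E) :
    ∑ x ∈ X, ((K X D x).card + (Q X D x).card) = 2 * cn X D := by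
  classical
  have h1 : ∀ x ∈ X, (K X D x).card + (Q X D x).card =
      (D.filter (fun d => x + d ∈ X)).card + (D.filter (fun d => x - d ∈ X)).card := by
    intro x _
    unfold K Q
    rw [Finset.filter_or, Finset.filter_and]
    exact Finset.card_union_add_card_inter _ _
  rw [Finset.sum_congr rfl h1, Finset.sum_add_distrib]
  have h2 : ∑ x ∈ X, (D.filter (fun d => x + d ∈ X)).card = cn X D := by
    unfold cn
    simp only [Finset.card_filter]
    exact Finset.sum_comm
  have h3 : ∑ x ∈ X, (D.filter (fun d => x - d ∈ X)).card = cn X D := by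
    unfold cn
    have : ∀ d ∈ D, (X.filter (fun x => x + d ∈ X)).card = (X.filter (fun x => x - d ∈ X)).card := by
      intro d _
      apply Finset.card_bij (fun x _ => x + d)
      · intro x hx
        rw [Finset.mem_filter] at hx ⊢
        exact ⟨hx.2, by simpa using hx.1⟩
      · intro a _ b _ hab
        exact add_right_cancel hab
      · intro y hy
        rw [Finset.mem_filter] at hy
        exact ⟨y - d, Finset.mem_filter.mpr ⟨hy.2, by simpa using hy.1⟩, by simp⟩
    rw [Finset.sum_congr rfl this]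
    simp only [Finset.card_filter]
    exact Finset.sum_comm
  rw [h2, h3]; ring

lemma mem_K_of_conn {X D : Finset E} {d x y : E} (hd : d ∈ D) (hc : Conn X d x y)
    (hy : d ∈ K X D y) : d ∈ K X D x := by
  classical
  unfold K at hy ⊢
  rw [Finset.mem_filter] at hy ⊢
  refine ⟨hd, ?_⟩
  obtain ⟨j, rfl, hj⟩ := hc
  rcases lt_trichotomy j 0 with h | h | h
  · right
    have := hj (-1) (by omega)
    simpa [sub_eq_add_neg] using this
  · subst h; simpa using hy.2
  · left
    have := hj 1 (by omega)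
    simpa using this

lemma sigma_ineq {t : ℝ} (ht : 0 < t) : 0 ≤ 1 - t + t * Real.log t := by
  have h1 := Real.one_sub_inv_le_log_of_pos ht
  have h2 : t * (1 - t⁻¹) ≤ t * Real.log t := mul_le_mul_of_nonneg_left h1 ht.le
  have h3 : t * (1 - t⁻¹) = t - 1 := by field_simp
  linarith

lemma sigma_ineq2 {t : ℝ} (ht : 0 < t) : 2 / 3 ≤ 1 - t + t * Real.log t + 2 * t := by
  have he : (3 : ℝ) ≤ Real.exp 2 := by
    have := Real.add_one_le_exp (2 : ℝ); linarith
  have h0 : 0 < t * Real.exp 2 := by positivity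
  have h1 := Real.one_sub_inv_le_log_of_pos h0
  rw [Real.log_mul ht.ne' (Real.exp_pos _).ne', Real.log_exp] at h1
  have h2 : t * (1 - (t * Real.exp 2)⁻¹) ≤ t * (Real.log t + 2) :=
    mul_le_mul_of_nonneg_left h1 ht.le
  have h3 : t * (1 - (t * Real.exp 2)⁻¹) = t - (Real.exp 2)⁻¹ := by
    field_simp
  have h4 : (Real.exp 2)⁻¹ ≤ 3⁻¹ := by
    apply inv_anti₀ (by norm_num) he
  rw [h3] at h2
  linarith

/-- the slack of a chain point -/
noncomputable def sig (s l : ℝ) : ℝ := 1 / l - s * (1 - Real.log s - Real.log l)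

lemma sig_nonneg {s l : ℝ} (hs : 0 < s) (hl : 0 < l) : 0 ≤ sig s l := by
  unfold sig
  have h := sigma_ineq (mul_pos hs hl)
  rw [Real.log_mul hs.ne' hl.ne'] at h
  have : 1 / l - s * (1 - Real.log s - Real.log l) =
      (1 - s * l + s * l * (Real.log s + Real.log l)) / l := by
    field_simp; ring
  rw [this]
  positivity

lemma sig_ge {s l : ℝ} (hs : 0 < s) (hl : 0 < l) : 2 / 3 * (1 / l) ≤ sig s l + 2 * s := by
  unfold sig
  have h := sigma_ineq2 (mul_pos hs hl)
  rw [Real.log_mul hs.ne' hl.ne'] at h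
  have : 1 / l - s * (1 - Real.log s - Real.log l) + 2 * s - 2 / 3 * (1 / l) =
      (1 - s * l + s * l * (Real.log s + Real.log l) + 2 * (s * l) - 2 / 3) / l := by
    field_simp; ring
  have h2 : 0 ≤ (1 - s * l + s * l * (Real.log s + Real.log l) + 2 * (s * l) - 2 / 3) / l := by
    apply div_nonneg _ hl.le
    linarith
  linarith

open Classical in
theorem main_ineq (X D : Finset E) (hD : ∀ d ∈ D, ‖d‖ = 1) (hD2 : ∀ d ∈ D, -d ∉ D)
    (hX : CS X) (hne : X.Nonempty)
    (g1 : ∀ x ∈ X, (K X D x).card ≤ 4)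
    (g2 : ∀ x ∈ X, (K X D x).card = 4 → (Q X D x).card ≤ 1)
    (g4 : ∀ y ∈ X, ∀ x ∈ X, ∀ d ∈ K X D y, (K X D y).card = 4 → Conn X d y x →
      (K X D x).card + (Q X D x).card ≤ 5)
    (s : ℝ) (hs : 0 < s) (hs1 : s ≤ 1) (hlog : Real.log X.card = -3 * Real.log s) :
    3 * X.card * s ≤ (3 * X.card - cn X D) * (1 + 16 * s) := by
  have hn : (0 : ℝ) < X.card := by exact_mod_cast hne.card_pos
  have hlen : ∀ d x, x ∈ X → (0 : ℝ) < (len X d x : ℝ) := by
    intro d x hx
    exact_mod_cast one_le_len hx
  set Y := X.filter (fun y => (K X D y).card = 4) with hY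
  set N5 := X.filter (fun x => (K X D x).card + (Q X D x).card ≤ 5) with hN5
  set S : ℝ := ∑ x ∈ X, ∑ d ∈ K X D x, sig s (len X d x) with hS
  set lam : ℝ := s * (1 - Real.log s) with hlam
  have hlogs : Real.log s ≤ 0 := Real.log_nonpos hs.le hs1
  have hlam0 : 0 ≤ lam := by
    rw [hlam]; apply mul_nonneg hs.le; linarith
  have hlam1 : lam ≤ 1 := by
    have := sigma_ineq hs
    rw [hlam]; linarith
  -- degree bounds
  have hdeg : ∀ x ∈ X, (K X D x).card + (Q X D x).card ≤ 6 := by
    intro x hx
    have h1 := g1 x hx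
    have h2 := Finset.card_le_card (Q_subset_K X D x)
    by_cases h : (K X D x).card = 4
    · have := g2 x hx h
      omega
    · omega
  -- E4
  have E4 : (N5.card : ℝ) ≤ 6 * X.card - 2 * cn X D := by
    have h1 : N5.card + ∑ x ∈ X, ((K X D x).card + (Q X D x).card) ≤ ∑ x ∈ X, 6 := by
      rw [hN5, Finset.card_filter, ← Finset.sum_add_distrib]
      apply Finset.sum_le_sum
      intro x hx
      have := hdeg x hx
      split_ifs with h <;> omega
    rw [sum_deg, Finset.sum_const, smul_eq_mul] at h1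
    have h2 : (N5.card : ℝ) + 2 * cn X D ≤ X.card * 6 := by exact_mod_cast h1
    linarith
  -- E3
  have E3 : (Y.card : ℝ) ≤ S + 8 * s * N5.card := by
    -- incidences
    have i1 : (3 : ℝ) * Y.card ≤ ∑ d ∈ D, ((Y.filter (fun y => d ∈ K X D y ∧ d ∉ Q X D y)).card : ℝ) := by
      have : 3 * Y.card ≤ ∑ d ∈ D, (Y.filter (fun y => d ∈ K X D y ∧ d ∉ Q X D y)).card := by
        simp only [Finset.card_filter]
        rw [Finset.sum_comm]
        have hle : ∀ y ∈ Y, 3 ≤ ∑ d ∈ D, if (d ∈ K X D y ∧ d ∉ Q X D y) then 1 else 0 := by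
          intro y hy
          rw [hY, Finset.mem_filter] at hy
          have h1 := g2 y hy.1 hy.2
          rw [← Finset.card_filter]
          have h2 : K X D y \ Q X D y ⊆ D.filter (fun d => d ∈ K X D y ∧ d ∉ Q X D y) := by
            intro d hd
            rw [Finset.mem_sdiff] at hd
            rw [Finset.mem_filter]
            refine ⟨?_, hd⟩
            have := hd.1
            unfold K at this
            exact (Finset.mem_filter.mp this).1
          have h3 := Finset.card_le_card h2
          have h4 := Finset.card_sdiff_add_card_eq_card (Q_subset_K X D y)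
          omega
        calc 3 * Y.card = ∑ y ∈ Y, 3 := by simp [mul_comm]
          _ ≤ _ := Finset.sum_le_sum hle
      exact_mod_cast this
    have i2 : ∀ d ∈ D, ((Y.filter (fun y => d ∈ K X D y ∧ d ∉ Q X D y)).card : ℝ) ≤
        ∑ x ∈ X, if d ∈ K X D x then (3 * sig s (len X d x) + if x ∈ N5 then 6 * s else 0) else 0 := by
      intro d hd
      set I := Y.filter (fun y => d ∈ K X D y ∧ d ∉ Q X D y) with hI
      have hIX : ∀ y ∈ I, y ∈ X ∧ (K X D y).card = 4 ∧ d ∈ K X D y ∧ d ∉ Q X D y := by
        intro y hy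
        rw [hI, Finset.mem_filter, hY, Finset.mem_filter] at hy
        exact ⟨hy.1.1, hy.1.2, hy.2.1, hy.2.2⟩
      have hcount : ∀ x ∈ X, (I.filter (fun y => Conn X d x y)).card ≤ 2 := by
        intro x hx
        have hsub : I.filter (fun y => Conn X d x y) ⊆
            (I.filter (fun y => Conn X d x y ∧ y + d ∉ X)) ∪
            (I.filter (fun y => Conn X d x y ∧ y - d ∉ X)) := by
          intro y hy
          rw [Finset.mem_filter] at hy
          have h1 := (hIX y hy.1).2.2.2
          by_cases h2 : y + d ∈ X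
          · refine Finset.mem_union_right _ (Finset.mem_filter.mpr ⟨hy.1, hy.2, fun h3 => h1 ?_⟩)
            unfold Q
            exact Finset.mem_filter.mpr ⟨hd, h2, h3⟩
          · exact Finset.mem_union_left _ (Finset.mem_filter.mpr ⟨hy.1, hy.2, h2⟩)
        have c1 : (I.filter (fun y => Conn X d x y ∧ y + d ∉ X)).card ≤ 1 := by
          rw [Finset.card_le_one]
          intro a ha b hb
          rw [Finset.mem_filter] at ha hb
          exact top_unique (ha.2.1.symm.trans hb.2.1) ha.2.2 hb.2.2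
        have c2 : (I.filter (fun y => Conn X d x y ∧ y - d ∉ X)).card ≤ 1 := by
          rw [Finset.card_le_one]
          intro a ha b hb
          rw [Finset.mem_filter] at ha hb
          exact bot_unique (ha.2.1.symm.trans hb.2.1) ha.2.2 hb.2.2
        calc _ ≤ _ := Finset.card_le_card hsub
          _ ≤ _ := Finset.card_union_le _ _
          _ ≤ 2 := by omega
      have j1 : (I.card : ℝ) = ∑ x ∈ X, (1 / (len X d x : ℝ)) * (I.filter (fun y => Conn X d x y)).card := by
        calc (I.card : ℝ) = ∑ y ∈ I, (1 : ℝ) := by simp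
          _ = ∑ y ∈ I, ∑ x ∈ X, if Conn X d y x then 1 / (len X d x : ℝ) else 0 := by
              apply Finset.sum_congr rfl
              intro y hy
              rw [← Finset.sum_filter, sum_inv_len (hIX y hy).1]
          _ = ∑ x ∈ X, ∑ y ∈ I, if Conn X d y x then 1 / (len X d x : ℝ) else 0 := Finset.sum_comm
          _ = _ := by
              apply Finset.sum_congr rfl
              intro x _
              rw [← Finset.sum_filter, Finset.sum_const, nsmul_eq_mul, mul_comm]
              congr 3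
              ext y
              simp only [Finset.mem_filter]
              exact ⟨fun h => ⟨h.1, h.2.symm⟩, fun h => ⟨h.1, h.2.symm⟩⟩
      rw [j1]
      apply Finset.sum_le_sum
      intro x hx
      have hpos := hlen d x hx
      have hsg := sig_nonneg hs hpos
      by_cases h0 : (I.filter (fun y => Conn X d x y)).card = 0
      · rw [h0]
        simp only [Nat.cast_zero, mul_zero]
        split_ifs <;> positivity
      · obtain ⟨y, hy⟩ := Finset.card_pos.mp (Nat.pos_of_ne_zero h0)
        rw [Finset.mem_filter] at hy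
        obtain ⟨hyX, hy4, hyK, -⟩ := hIX y hy.1
        have hxK : d ∈ K X D x := mem_K_of_conn hd hy.2 hyK
        have hx5 : x ∈ N5 := by
          rw [hN5, Finset.mem_filter]
          exact ⟨hx, g4 y hyX x hx d hyK hy4 hy.2.symm⟩
        rw [if_pos hxK, if_pos hx5]
        have hc : ((I.filter (fun y => Conn X d x y)).card : ℝ) ≤ 2 := by
          exact_mod_cast hcount x hx
        have hsg2 := sig_ge hs hpos
        calc (1 / (len X d x : ℝ)) * (I.filter (fun y => Conn X d x y)).card
            ≤ (1 / (len X d x : ℝ)) * 2 := by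
              apply mul_le_mul_of_nonneg_left hc; positivity
          _ ≤ 3 * sig s (len X d x) + 6 * s := by linarith
    have i3 : ∑ d ∈ D, ∑ x ∈ X, (if d ∈ K X D x then
          (3 * sig s (len X d x) + if x ∈ N5 then 6 * s else 0) else 0) ≤
        3 * S + 24 * s * N5.card := by
      rw [Finset.sum_comm]
      have k1 : ∀ x ∈ X, ∑ d ∈ D, (if d ∈ K X D x then
          (3 * sig s (len X d x) + if x ∈ N5 then 6 * s else 0) else 0) ≤
          3 * ∑ d ∈ K X D x, sig s (len X d x) + if x ∈ N5 then 24 * s else 0 := by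
        intro x hx
        rw [← Finset.sum_filter]
        have hf : D.filter (fun d => d ∈ K X D x) = K X D x := by
          ext d
          unfold K
          simp only [Finset.mem_filter]
          tauto
        rw [hf, Finset.sum_add_distrib, Finset.mul_sum]
        gcongr
        rw [Finset.sum_const, nsmul_eq_mul]
        have hk : ((K X D x).card : ℝ) ≤ 4 := by exact_mod_cast g1 x hx
        split_ifs
        · nlinarith
        · simp
      calc _ ≤ ∑ x ∈ X, (3 * ∑ d ∈ K X D x, sig s (len X d x) + if x ∈ N5 then 24 * s else 0) :=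
            Finset.sum_le_sum k1
        _ = 3 * S + 24 * s * N5.card := by
            rw [Finset.sum_add_distrib, ← Finset.mul_sum, ← hS, ← Finset.sum_filter]
            have : X.filter (fun x => x ∈ N5) = N5 := by
              ext x
              rw [hN5]
              simp only [Finset.mem_filter]
              tauto
            rw [this, Finset.sum_const, nsmul_eq_mul]; ring
    have i4 := (i1.trans (Finset.sum_le_sum i2)).trans i3
    linarith
  -- E2
  have E2 : (cn X D : ℝ) ≤ 3 * X.card * (1 - lam) + Y.card + s * (X.card * Real.log X.card) - S := by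
    have a1 : (cn X D : ℝ) ≤ ∑ d ∈ D, ∑ x ∈ X, (1 - 1 / (len X d x : ℝ)) := by
      unfold cn
      push_cast
      exact Finset.sum_le_sum (fun d hd => contacts_le (hD d hd))
    have a2 : ∑ d ∈ D, ∑ x ∈ X, (1 - 1 / (len X d x : ℝ)) =
        ∑ x ∈ X, ∑ d ∈ K X D x, (1 - 1 / (len X d x : ℝ)) := by
      rw [Finset.sum_comm]
      apply Finset.sum_congr rfl
      intro x hx
      symm
      apply Finset.sum_subset
      · intro d hd; unfold K at hd; exact (Finset.mem_filter.mp hd).1
      · intro d hd hdK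
        have : len X d x = 1 := by
          unfold K at hdK
          rw [Finset.mem_filter] at hdK
          push Not at hdK
          exact len_eq_one hx (hdK hd).1 (hdK hd).2
        rw [this]; norm_num
    have a3 : ∑ x ∈ X, ∑ d ∈ K X D x, (1 - 1 / (len X d x : ℝ)) =
        ∑ x ∈ X, (1 - lam) * (K X D x).card + s * ∑ x ∈ X, ∑ d ∈ K X D x, Real.log (len X d x) - S := by
      rw [hS, Finset.mul_sum, ← Finset.sum_add_distrib, ← Finset.sum_sub_distrib]
      apply Finset.sum_congr rfl
      intro x hx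
      rw [Finset.mul_sum]
      have : (1 - lam) * ((K X D x).card : ℝ) = ∑ d ∈ K X D x, (1 - lam) := by
        rw [Finset.sum_const, nsmul_eq_mul]; ring
      rw [this, ← Finset.sum_add_distrib, ← Finset.sum_sub_distrib]
      apply Finset.sum_congr rfl
      intro d _
      unfold sig
      rw [hlam]; ring
    have a4 : ∑ x ∈ X, (1 - lam) * ((K X D x).card : ℝ) ≤ 3 * X.card * (1 - lam) + Y.card := by
      have : ∀ x ∈ X, (1 - lam) * ((K X D x).card : ℝ) ≤ 3 * (1 - lam) +
          if (K X D x).card = 4 then 1 else 0 := by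
        intro x hx
        have h1 := g1 x hx
        split_ifs with h
        · rw [h]; push_cast; linarith
        · have h2 : (K X D x).card ≤ 3 := by omega
          have h3 : ((K X D x).card : ℝ) ≤ 3 := by exact_mod_cast h2
          nlinarith
      calc _ ≤ ∑ x ∈ X, (3 * (1 - lam) + if (K X D x).card = 4 then (1 : ℝ) else 0) :=
            Finset.sum_le_sum this
        _ = _ := by
            rw [Finset.sum_add_distrib, Finset.sum_const, nsmul_eq_mul, hY, Finset.card_filter]
            push_cast; ring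
    have a5 : ∑ x ∈ X, ∑ d ∈ K X D x, Real.log (len X d x) ≤ X.card * Real.log X.card := by
      refine le_trans ?_ (logsum D hD hD2 X.card X rfl hX)
      rw [Finset.sum_comm (s := D)]
      apply Finset.sum_le_sum
      intro x hx
      apply Finset.sum_le_sum_of_subset_of_nonneg
      · intro d hd; unfold K at hd; exact (Finset.mem_filter.mp hd).1
      · intro d _ _
        apply Real.log_nonneg
        exact_mod_cast one_le_len hx
    have a6 : s * ∑ x ∈ X, ∑ d ∈ K X D x, Real.log (len X d x) ≤ s * (X.card * Real.log X.card) :=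
      mul_le_mul_of_nonneg_left a5 hs.le
    rw [a2, a3] at a1
    linarith
  rw [hlog] at E2
  have E5 : (cn X D : ℝ) ≤ 3 * X.card - 3 * X.card * s + 8 * s * N5.card := by
    have : 3 * (X.card : ℝ) * (1 - lam) + s * (X.card * (-3 * Real.log s)) =
        3 * X.card - 3 * X.card * s := by
      rw [hlam]; ring
    linarith
  have E6 : 8 * s * (N5.card : ℝ) ≤ 8 * s * (6 * X.card - 2 * cn X D) :=
    mul_le_mul_of_nonneg_left E4 (by positivity)
  nlinarith


end Chains

section Geometry

abbrev E3 := EuclideanSpace ℝ (Fin 3)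

lemma three_le_card {P : Finset E3} {g : E3 → ℝ} (hg : ∀ e ∈ P, 0 < g e)
    (hu : ∀ e ∈ P, ‖e‖ = 1) (ha : ∀ e ∈ P, ∀ e' ∈ P, e ≠ -e')
    (hs : ∑ e ∈ P, g e • e = 0) (hne : P.Nonempty) : 3 ≤ P.card := by
  classical
  by_contra hlt
  push Not at hlt
  have h0 : 0 < P.card := hne.card_pos
  have h12 : P.card = 1 ∨ P.card = 2 := by omega
  rcases h12 with h1 | h2
  · obtain ⟨a, rfl⟩ := Finset.card_eq_one.mp h1
    rw [Finset.sum_singleton] at hs
    have hn := congrArg norm hs
    rw [norm_smul, hu a (by simp), norm_zero, mul_one, Real.norm_eq_abs, abs_eq_zero] at hn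
    have := hg a (by simp)
    linarith
  · obtain ⟨a, b, hab, rfl⟩ := Finset.card_eq_two.mp h2
    rw [Finset.sum_pair hab] at hs
    have hga := hg a (by simp)
    have hgb := hg b (by simp)
    have e1 : g a • a = -(g b • b) := eq_neg_of_add_eq_zero_left hs
    have hn := congrArg norm e1
    rw [norm_smul, norm_neg, norm_smul, hu a (by simp), hu b (by simp), mul_one, mul_one,
      Real.norm_eq_abs, Real.norm_eq_abs, abs_of_pos hga, abs_of_pos hgb] at hn
    rw [hn, ← smul_neg] at e1
    have e2 : a = -b := smul_right_injective _ hgb.ne' e1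
    exact ha a (by simp) b (by simp) e2

lemma five_false {t : Finset E3} (ht : t.card = 5) (hu : ∀ e ∈ t, ‖e‖ = 1)
    (ha : ∀ e ∈ t, ∀ e' ∈ t, e ≠ -e') (hi : ∀ e ∈ t, ∀ e' ∈ t, e ≠ e' → inner ℝ e e' ≤ 0) :
    False := by
  classical
  have hfr : Module.finrank ℝ E3 + 1 < t.card := by
    rw [ht, finrank_euclideanSpace_fin]; norm_num
  obtain ⟨f, hf1, hf2, x, hxt, hfx⟩ :=
    Module.exists_nontrivial_relation_sum_zero_of_finrank_succ_lt_card hfr
  set P := t.filter (fun e => 0 < f e) with hP
  set N := t.filter (fun e => f e < 0) with hN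
  have hPt : P ⊆ t := Finset.filter_subset _ _
  have hNt : N ⊆ t := Finset.filter_subset _ _
  have hPN : Disjoint P N := by
    rw [Finset.disjoint_left]
    intro a h1 h2
    rw [hP, Finset.mem_filter] at h1
    rw [hN, Finset.mem_filter] at h2
    linarith [h1.2, h2.2]
  have hPne : P.Nonempty := by
    by_contra hcon
    rw [Finset.not_nonempty_iff_eq_empty] at hcon
    have hle : ∀ e ∈ t, f e ≤ 0 := by
      intro e he
      by_contra h
      push Not at h
      have : e ∈ P := Finset.mem_filter.mpr ⟨he, h⟩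
      rw [hcon] at this
      exact absurd this (Finset.notMem_empty _)
    exact hfx ((Finset.sum_eq_zero_iff_of_nonpos hle).mp hf2 x hxt)
  have hNne : N.Nonempty := by
    by_contra hcon
    rw [Finset.not_nonempty_iff_eq_empty] at hcon
    have hle : ∀ e ∈ t, 0 ≤ f e := by
      intro e he
      by_contra h
      push Not at h
      have : e ∈ N := Finset.mem_filter.mpr ⟨he, h⟩
      rw [hcon] at this
      exact absurd this (Finset.notMem_empty _)
    exact hfx ((Finset.sum_eq_zero_iff_of_nonneg hle).mp hf2 x hxt)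
  have hsum : ∑ e ∈ P, f e • e + ∑ e ∈ N, f e • e = 0 := by
    rw [← Finset.sum_union hPN, ← hf1]
    apply Finset.sum_subset (Finset.union_subset hPt hNt)
    intro e he hne
    rw [Finset.mem_union, not_or] at hne
    have h1 : ¬ 0 < f e := fun h => hne.1 (Finset.mem_filter.mpr ⟨he, h⟩)
    have h2 : ¬ f e < 0 := fun h => hne.2 (Finset.mem_filter.mpr ⟨he, h⟩)
    have h3 : f e = 0 := by linarith [not_lt.mp h1, not_lt.mp h2]
    rw [h3, zero_smul]
  have hw : ∑ e ∈ P, f e • e = 0 := by
    have h1 : inner ℝ (∑ e ∈ P, f e • e) (∑ e ∈ P, f e • e) ≤ 0 := by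
      have h2 : ∑ e ∈ P, f e • e = -∑ e ∈ N, f e • e := eq_neg_of_add_eq_zero_left hsum
      have h3 : inner ℝ (∑ e ∈ P, f e • e) (∑ e ∈ P, f e • e) =
          -(inner ℝ (∑ e ∈ P, f e • e) (∑ e ∈ N, f e • e)) := by
        conv_lhs => rw [h2]
        rw [inner_neg_left, inner_neg_right, neg_neg, h2, inner_neg_left, neg_neg]
      rw [h3, sum_inner]
      simp only [inner_sum]
      rw [neg_nonpos]
      apply Finset.sum_nonneg
      intro a haP
      apply Finset.sum_nonneg
      intro b hbN
      rw [real_inner_smul_left, real_inner_smul_right]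
      have ha' := (Finset.mem_filter.mp haP)
      have hb' := (Finset.mem_filter.mp hbN)
      have hab : a ≠ b := by
        rintro rfl; linarith [ha'.2, hb'.2]
      have h4 := hi a ha'.1 b hb'.1 hab
      have h5 : 0 ≤ f b * inner ℝ a b := mul_nonneg_of_nonpos_of_nonpos hb'.2.le h4
      exact mul_nonneg ha'.2.le h5
    exact real_inner_self_nonpos.mp h1
  have hw2 : ∑ e ∈ N, (-f e) • e = 0 := by
    rw [hw, zero_add] at hsum
    simp only [neg_smul]
    rw [Finset.sum_neg_distrib, hsum, neg_zero]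
  have hP3 : 3 ≤ P.card := three_le_card (fun e he => (Finset.mem_filter.mp he).2)
    (fun e he => hu e (hPt he)) (fun e he e' he' => ha e (hPt he) e' (hPt he')) hw hPne
  have hN3 : 3 ≤ N.card := three_le_card
    (fun e he => by have := (Finset.mem_filter.mp he).2; linarith)
    (fun e he => hu e (hNt he)) (fun e he e' he' => ha e (hNt he) e' (hNt he')) hw2 hNne
  have := Finset.card_le_card (Finset.union_subset hPt hNt)
  rw [Finset.card_union_of_disjoint hPN] at this
  omega

/-- in three-space, a unit vector orthogonal to two orthonormal vectors is unique up to sign -/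
lemma perp_unique {a b c c' : E3} (ha : ‖a‖ = 1) (hb : ‖b‖ = 1) (hc : ‖c‖ = 1) (hc' : ‖c'‖ = 1)
    (hab : inner ℝ a b = 0) (hca : inner ℝ c a = 0) (hcb : inner ℝ c b = 0)
    (hca' : inner ℝ c' a = 0) (hcb' : inner ℝ c' b = 0) : c = c' ∨ c = -c' := by
  classical
  by_contra hcon
  push Not at hcon
  obtain ⟨hne, hne'⟩ := hcon
  have hon : ∀ {p q : E3}, ‖p‖ = 1 → inner ℝ p q = 0 → p ≠ q := by
    rintro p q hp hpq rfl
    rw [real_inner_self_eq_norm_sq, hp] at hpq
    norm_num at hpq
  have hab' := hon ha hab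
  have h1 := hon hc hca
  have h2 := hon hc hcb
  have h3 := hon hc' hca'
  have h4 := hon hc' hcb'
  have hcard : ({a, b, c, c'} : Finset E3).card = 4 := by
    rw [Finset.card_insert_of_notMem, Finset.card_insert_of_notMem, Finset.card_insert_of_notMem,
      Finset.card_singleton]
    · simpa using hne
    · simp only [Finset.mem_insert, Finset.mem_singleton, not_or]
      exact ⟨h2.symm, h4.symm⟩
    · simp only [Finset.mem_insert, Finset.mem_singleton, not_or]
      exact ⟨hab', h1.symm, h3.symm⟩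
  have hfr : Module.finrank ℝ E3 < ({a, b, c, c'} : Finset E3).card := by
    rw [hcard, finrank_euclideanSpace_fin]; norm_num
  obtain ⟨f, hf1, x, hxt, hfx⟩ :=
    Module.exists_nontrivial_relation_of_finrank_lt_card hfr
  rw [Finset.sum_insert (by
      simp only [Finset.mem_insert, Finset.mem_singleton, not_or]
      exact ⟨hab', h1.symm, h3.symm⟩),
    Finset.sum_insert (by
      simp only [Finset.mem_insert, Finset.mem_singleton, not_or]
      exact ⟨h2.symm, h4.symm⟩),
    Finset.sum_pair hne] at hf1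
  have hba : inner ℝ b a = 0 := by rw [real_inner_comm]; exact hab
  have fa : f a = 0 := by
    have := congrArg (fun v => inner ℝ v a) hf1
    simp only [inner_add_left, real_inner_smul_left, hba, hca, hca', inner_zero_left,
      real_inner_self_eq_norm_sq, ha] at this
    linarith
  have fb : f b = 0 := by
    have := congrArg (fun v => inner ℝ v b) hf1
    simp only [inner_add_left, real_inner_smul_left, hab, hcb, hcb', inner_zero_left,
      real_inner_self_eq_norm_sq, hb] at this
    linarith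
  rw [fa, fb, zero_smul, zero_smul, zero_add, zero_add] at hf1
  have e1 : f c • c = -(f c' • c') := eq_neg_of_add_eq_zero_left hf1
  have hn := congrArg norm e1
  rw [norm_smul, norm_neg, norm_smul, hc, hc', mul_one, mul_one,
      Real.norm_eq_abs, Real.norm_eq_abs] at hn
  have hfc : f c ≠ 0 := by
    intro h0
    have h0' : f c' = 0 := by
      rw [h0, abs_zero] at hn
      exact abs_eq_zero.mp hn.symm
    simp only [Finset.mem_insert, Finset.mem_singleton] at hxt
    rcases hxt with rfl | rfl | rfl | rfl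
    · exact hfx fa
    · exact hfx fb
    · exact hfx h0
    · exact hfx h0'
  rcases abs_eq_abs.mp hn with h | h
  · rw [h, ← smul_neg] at e1
    exact hne' (smul_right_injective _ (by rw [← h]; exact hfc) e1)
  · rw [h, neg_smul, neg_inj] at e1
    have : f c' ≠ 0 := by
      intro h0; apply hfc; rw [h, h0, neg_zero]
    exact hne (smul_right_injective _ this e1)

variable {X D : Finset E3}

lemma star {x u v : E3} (hX : CS X) (hx : x ∈ X) (hu : ‖u‖ = 1) (hv : ‖v‖ = 1)
    (hxu : x + u ∈ X) (hxv : x + v ∈ X) (hne : u ≠ v) : inner ℝ u v ≤ 0 := by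
  rcases hX x hx u hu hxu (x + v) hxv with h | h
  · rw [add_sub_cancel_left, real_inner_comm] at h; exact h
  · rw [add_sub_cancel_left] at h
    exact absurd (eq_of_one_le_inner hv hu h).symm hne

lemma g1 (hD : ∀ d ∈ D, ‖d‖ = 1) (hD2 : ∀ d ∈ D, -d ∉ D) (hX : CS X) :
    ∀ x ∈ X, (K X D x).card ≤ 4 := by
  classical
  intro x hx
  by_contra hcon
  push Not at hcon
  obtain ⟨t, htK, htc⟩ := Finset.exists_subset_card_eq (show 5 ≤ (K X D x).card by omega)
  have hK : ∀ d ∈ t, d ∈ D ∧ (x + d ∈ X ∨ x - d ∈ X) := by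
    intro d hd
    exact mem_K.mp (htK hd)
  set φ : E3 → E3 := fun d => if x + d ∈ X then d else -d with hφ
  have hφ1 : ∀ d ∈ t, x + φ d ∈ X := by
    intro d hd
    rw [hφ]
    simp only
    split_ifs with h
    · exact h
    · have := (hK d hd).2.resolve_left h
      rwa [← sub_eq_add_neg]
  have hφ2 : ∀ d, φ d = d ∨ φ d = -d := by
    intro d; rw [hφ]; simp only
    split_ifs
    · exact Or.inl rfl
    · exact Or.inr rfl
  have hφn : ∀ d ∈ t, ‖φ d‖ = 1 := by
    intro d hd
    rcases hφ2 d with h | h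
    · rw [h]; exact hD d (hK d hd).1
    · rw [h, norm_neg]; exact hD d (hK d hd).1
  have hnn : ∀ d ∈ t, ∀ d' ∈ t, d ≠ -d' := by
    intro d hd d' hd' h
    exact hD2 d' (hK d' hd').1 (h ▸ (hK d hd).1)
  have hself : ∀ d ∈ t, d ≠ -d := by
    intro d hd h
    exact hnn d hd d hd h
  have hinj : Set.InjOn φ t := by
    intro d hd d' hd' h
    rcases hφ2 d with h1 | h1 <;> rcases hφ2 d' with h2 | h2 <;> rw [h1, h2] at h
    · exact h
    · exact absurd h (hnn d hd d' hd')
    · exact absurd h.symm (hnn d' hd' d hd)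
    · exact neg_injective h
  have hcard : (t.image φ).card = 5 := by
    rw [Finset.card_image_of_injOn hinj, htc]
  apply five_false hcard
  · intro e he
    obtain ⟨d, hd, rfl⟩ := Finset.mem_image.mp he
    exact hφn d hd
  · intro e he e' he' h
    obtain ⟨d, hd, rfl⟩ := Finset.mem_image.mp he
    obtain ⟨d', hd', rfl⟩ := Finset.mem_image.mp he'
    by_cases hdd : d = d'
    · subst hdd
      have : φ d = 0 := by
        have h2 : (2 : ℝ) • φ d = 0 := by rw [two_smul]; nth_rewrite 1 [h]; simp
        exact (smul_eq_zero.mp h2).resolve_left (by norm_num)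
      have h3 := hφn d hd
      rw [this, norm_zero] at h3
      norm_num at h3
    · rcases hφ2 d with h1 | h1 <;> rcases hφ2 d' with h2 | h2 <;> rw [h1, h2] at h
      · exact hnn d hd d' hd' h
      · rw [neg_neg] at h; exact hdd h
      · exact hdd (neg_injective h)
      · rw [neg_neg] at h; exact hnn d' hd' d hd h.symm
  · intro e he e' he' hne
    obtain ⟨d, hd, rfl⟩ := Finset.mem_image.mp he
    obtain ⟨d', hd', rfl⟩ := Finset.mem_image.mp he'
    exact star hX hx (hφn d hd) (hφn d' hd') (hφ1 d hd) (hφ1 d' hd') hne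

lemma perp_of_Q (hD : ∀ d ∈ D, ‖d‖ = 1) (hD2 : ∀ d ∈ D, -d ∉ D) (hX : CS X) {x : E3}
    (hx : x ∈ X) {a c : E3} (ha : a ∈ Q X D x) (hc : c ∈ K X D x) (hne : c ≠ a) :
    inner ℝ c a = 0 := by
  classical
  rw [mem_Q] at ha
  rw [mem_K] at hc
  have hna : ‖a‖ = 1 := hD a ha.1
  have hnc : ‖c‖ = 1 := hD c hc.1
  have hca : c ≠ -a := fun h => hD2 a ha.1 (h ▸ hc.1)
  have hxa : x + (-a) ∈ X := by rw [← sub_eq_add_neg]; exact ha.2.2
  rcases hc.2 with h | h
  · have h1 := star hX hx hnc hna h ha.2.1 hne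
    have h2 := star hX hx hnc (by rw [norm_neg]; exact hna) h hxa hca
    rw [inner_neg_right] at h2
    linarith
  · rw [sub_eq_add_neg] at h
    have h1 := star hX hx (u := -c) (by rw [norm_neg]; exact hnc) hna h ha.2.1
      (fun h' => hca (by rw [← h', neg_neg]))
    have h2 := star hX hx (u := -c) (by rw [norm_neg]; exact hnc) (by rw [norm_neg]; exact hna)
      h hxa (fun h' => hne (neg_injective h'))
    rw [inner_neg_left] at h1 h2
    rw [inner_neg_right] at h2
    linarith

lemma K_unit (hD : ∀ d ∈ D, ‖d‖ = 1) {x a : E3} (ha : a ∈ K X D x) : ‖a‖ = 1 := by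
  exact hD a (mem_K.mp ha).1

lemma K_mem {x a : E3} (ha : a ∈ K X D x) : a ∈ D := by
  exact (mem_K.mp ha).1

lemma g2 (hD : ∀ d ∈ D, ‖d‖ = 1) (hD2 : ∀ d ∈ D, -d ∉ D) (hX : CS X) :
    ∀ x ∈ X, (K X D x).card = 4 → (Q X D x).card ≤ 1 := by
  classical
  intro x hx h4
  by_contra hcon
  push Not at hcon
  obtain ⟨a, ha, b, hb, hab⟩ := Finset.one_lt_card.mp hcon
  have haK := Q_subset_K X D x ha
  have hbK := Q_subset_K X D x hb
  have hcard : 1 < (((K X D x).erase a).erase b).card := by
    rw [Finset.card_erase_of_mem (Finset.mem_erase.mpr ⟨hab.symm, hbK⟩),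
      Finset.card_erase_of_mem haK, h4]
    norm_num
  obtain ⟨c, hc, c', hc', hcc⟩ := Finset.one_lt_card.mp hcard
  simp only [Finset.mem_erase] at hc hc'
  have := perp_unique (K_unit hD haK) (K_unit hD hbK) (K_unit hD hc.2.2) (K_unit hD hc'.2.2)
    (perp_of_Q hD hD2 hX hx hb haK hab)
    (perp_of_Q hD hD2 hX hx ha hc.2.2 hc.2.1) (perp_of_Q hD hD2 hX hx hb hc.2.2 hc.1)
    (perp_of_Q hD hD2 hX hx ha hc'.2.2 hc'.2.1) (perp_of_Q hD hD2 hX hx hb hc'.2.2 hc'.1)
  rcases this with h | h
  · exact hcc h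
  · exact hD2 c' (K_mem hc'.2.2) (h ▸ K_mem hc.2.2)

lemma g4 (hD : ∀ d ∈ D, ‖d‖ = 1) (hD2 : ∀ d ∈ D, -d ∉ D) (hX : CS X) :
    ∀ y ∈ X, ∀ x ∈ X, ∀ d ∈ K X D y, (K X D y).card = 4 → Conn X d y x →
      (K X D x).card + (Q X D x).card ≤ 5 := by
  classical
  intro y hy x hx d hdy h4 hc
  by_contra hcon
  push Not at hcon
  have k1 := g1 hD hD2 hX x hx
  have k2 := g2 hD hD2 hX x hx
  have k3 := Finset.card_le_card (Q_subset_K X D x)
  have k4 : (K X D x).card = 3 := by
    by_cases h : (K X D x).card = 4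
    · have := k2 h; omega
    · omega
  have k5 : (Q X D x).card = 3 := by omega
  have hQK : Q X D x = K X D x := Finset.eq_of_subset_of_card_le (Q_subset_K X D x) (by omega)
  have hdx : d ∈ K X D x := mem_K_of_conn (K_mem hdy) hc.symm hdy
  have hsub : K X D y ⊆ K X D x := by
    intro e he
    -- the other two axes
    have hcard2 : ((K X D x).erase d).card = 2 := by
      rw [Finset.card_erase_of_mem hdx, k4]
    obtain ⟨a, b, hab, hset⟩ := Finset.card_eq_two.mp hcard2
    have haE : a ∈ (K X D x).erase d := by rw [hset]; simp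
    have hbE : b ∈ (K X D x).erase d := by rw [hset]; simp
    rw [Finset.mem_erase] at haE hbE
    have haQ : a ∈ Q X D x := by rw [hQK]; exact haE.2
    have hbQ : b ∈ Q X D x := by rw [hQK]; exact hbE.2
    have hdQ : d ∈ Q X D x := by rw [hQK]; exact hdx
    obtain ⟨j, hj, -⟩ := hc.symm
    have key : ∀ p ∈ Q X D x, p ≠ d → inner ℝ e p = 0 ∨ e = p := by
      intro p hp hpd
      have hpK := Q_subset_K X D x hp
      have hpn : ‖p‖ = 1 := K_unit hD hpK
      have hen : ‖e‖ = 1 := K_unit hD he
      have hdp : inner ℝ d p = 0 := perp_of_Q hD hD2 hX hx hp hdx (Ne.symm hpd)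
      have hpX : x + p ∈ X ∧ x - p ∈ X := (mem_Q.mp hp).2
      have heX : y + e ∈ X ∨ y - e ∈ X := (mem_K.mp he).2
      have hmain : ∀ u : E3, ‖u‖ = 1 → y + u ∈ X → inner ℝ u p = 0 ∨ u = p ∨ u = -p := by
        intro u hun hyu
        have e1 : inner ℝ (y + u - x) p = inner ℝ u p := by
          have : y + u - x = (j : ℝ) • d + u := by
            rw [hj, Int.cast_smul_eq_zsmul]; abel
          rw [this, inner_add_left, real_inner_smul_left, hdp]; ring
        have c1 := hX x hx p hpn hpX.1 _ hyu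
        have c2 := hX x hx (-p) (by rw [norm_neg]; exact hpn)
          (by rw [← sub_eq_add_neg]; exact hpX.2) _ hyu
        rw [inner_neg_right] at c2
        rw [e1] at c1 c2
        rcases c1 with c1 | c1
        · rcases c2 with c2 | c2
          · left; linarith
          · right; right
            exact eq_neg_of_inner_le hun hpn (by linarith)
        · right; left
          exact eq_of_one_le_inner hun hpn c1
      rcases heX with h | h
      · rcases hmain e hen h with h' | h' | h'
        · exact Or.inl h'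
        · exact Or.inr h'
        · exact absurd (h' ▸ K_mem he) (hD2 p (K_mem hpK))
      · rw [sub_eq_add_neg] at h
        rcases hmain (-e) (by rw [norm_neg]; exact hen) h with h' | h' | h'
        · left; rw [inner_neg_left] at h'; linarith
        · exfalso
          have : e = -p := by rw [← h', neg_neg]
          exact absurd (this ▸ K_mem he) (hD2 p (K_mem hpK))
        · exact Or.inr (neg_injective h')
    rcases key a haQ haE.1 with h | h
    · rcases key b hbQ hbE.1 with h' | h'
      · have hda : inner ℝ d a = 0 := perp_of_Q hD hD2 hX hx haQ hdx haE.1.symm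
        have hdb : inner ℝ d b = 0 := perp_of_Q hD hD2 hX hx hbQ hdx hbE.1.symm
        have hab0 : inner ℝ a b = 0 := perp_of_Q hD hD2 hX hx hbQ haE.2 hab
        rcases perp_unique (K_unit hD haE.2) (K_unit hD hbE.2) (K_unit hD he) (K_unit hD hdx)
          hab0 h h' hda hdb with h5 | h5
        · rw [h5]; exact hdx
        · exact absurd (h5 ▸ K_mem he) (hD2 d (K_mem hdx))
      · rw [h']; exact hbE.2
    · rw [h]; exact haE.2
  have := Finset.card_le_card hsub
  omega


end Geometry

section Packings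

/-- a finite family of balls of diameter one (given by the set of centres) with disjoint interiors -/
def IsPacking (X : Finset E3) : Prop :=
  ∀ x ∈ X, ∀ y ∈ X, x ≠ y →
    Disjoint (interior (Metric.closedBall x (1 / 2))) (interior (Metric.closedBall y (1 / 2)))

/-- any two members are separated by a plane missing the interiors of all members -/
def IsTotallySeparable (X : Finset E3) : Prop :=
  ∀ x ∈ X, ∀ y ∈ X, x ≠ y → ∃ (v : E3) (t : ℝ), v ≠ 0 ∧
    (∀ p ∈ Metric.closedBall x (1 / 2 : ℝ), inner ℝ v p ≤ t) ∧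
    (∀ p ∈ Metric.closedBall y (1 / 2 : ℝ), t ≤ inner ℝ v p) ∧
    (∀ z ∈ X, Disjoint {p : E3 | inner ℝ v p = t} (interior (Metric.closedBall z (1 / 2))))

/-- unordered pairs of distinct members that touch -/
def contactPairs (X : Finset E3) : Set (Sym2 E3) :=
  {e | ∃ x ∈ X, ∃ y ∈ X, x ≠ y ∧
    (Metric.closedBall x (1 / 2) ∩ Metric.closedBall y (1 / 2)).Nonempty ∧ e = s(x, y)}

/-- the contact number -/
noncomputable def contactNumber (X : Finset E3) : ℕ := (contactPairs X).ncard

lemma IsPacking.one_le_dist {X : Finset E3} (h : IsPacking X) {x y : E3} (hx : x ∈ X) (hy : y ∈ X)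
    (hne : x ≠ y) : 1 ≤ dist x y := by
  have := h x hx y hy hne
  rw [interior_closedBall _ (by norm_num), interior_closedBall _ (by norm_num),
    disjoint_ball_ball_iff (by norm_num) (by norm_num)] at this
  linarith

lemma touch_iff {x y : E3} : (Metric.closedBall x (1 / 2 : ℝ) ∩ Metric.closedBall y (1 / 2)).Nonempty ↔
    dist x y ≤ 1 := by
  rw [← Set.not_disjoint_iff_nonempty_inter,
    disjoint_closedBall_closedBall_iff (by norm_num) (by norm_num), not_lt]
  norm_num

lemma IsTotallySeparable.cs {X : Finset E3} (h : IsTotallySeparable X) : CS X := by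
  intro x hx u hu hxu z hz
  have hu0 : u ≠ 0 := by rintro rfl; rw [norm_zero] at hu; norm_num at hu
  obtain ⟨v, t, hv, h1, h2, h3⟩ := h x hx (x + u) hxu (by
    intro h; exact hu0 (by simpa using h.symm))
  have hvn : 0 < ‖v‖ := norm_pos_iff.mpr hv
  have hself : inner ℝ v v = ‖v‖ ^ 2 := real_inner_self_eq_norm_sq v
  -- support points
  have s1 : inner ℝ v x + ‖v‖ / 2 ≤ t := by
    have := h1 (x + (1 / (2 * ‖v‖)) • v) (by
      rw [Metric.mem_closedBall, dist_eq_norm, add_sub_cancel_left, norm_smul, Real.norm_eq_abs,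
        abs_of_pos (by positivity)]
      apply le_of_eq; field_simp)
    rw [inner_add_right, real_inner_smul_right, hself] at this
    have e : 1 / (2 * ‖v‖) * ‖v‖ ^ 2 = ‖v‖ / 2 := by field_simp
    linarith
  have s2 : t ≤ inner ℝ v x + inner ℝ v u - ‖v‖ / 2 := by
    have := h2 (x + u - (1 / (2 * ‖v‖)) • v) (by
      rw [Metric.mem_closedBall, dist_eq_norm, sub_sub_cancel_left, norm_neg, norm_smul,
        Real.norm_eq_abs, abs_of_pos (by positivity)]
      apply le_of_eq; field_simp)
    rw [inner_sub_right, inner_add_right, real_inner_smul_right, hself] at this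
    have e : 1 / (2 * ‖v‖) * ‖v‖ ^ 2 = ‖v‖ / 2 := by field_simp
    linarith
  have hcs : inner ℝ v u ≤ ‖v‖ * ‖u‖ := real_inner_le_norm v u
  have heq : inner ℝ v u = ‖v‖ * ‖u‖ := by
    apply le_antisymm hcs
    rw [hu]; linarith
  have hvu : v = ‖v‖ • u := by
    have := inner_eq_norm_mul_iff_real.mp heq
    rw [hu, one_smul] at this
    exact this
  have ht : t = inner ℝ v x + ‖v‖ / 2 := by
    rw [hu] at heq; linarith
  by_contra hcon
  push Not at hcon
  obtain ⟨c1, c2⟩ := hcon
  have hz' := h3 z hz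
  rw [interior_closedBall _ (by norm_num), Set.disjoint_left] at hz'
  have hvz : inner ℝ v z = inner ℝ v x + ‖v‖ * inner ℝ (z - x) u := by
    have : inner ℝ v z = inner ℝ v x + inner ℝ v (z - x) := by
      rw [← inner_add_right]; congr 1; abel
    rw [this]
    congr 1
    conv_lhs => rw [hvu]
    rw [real_inner_smul_left, real_inner_comm]
  apply hz' (a := z + ((t - inner ℝ v z) / ‖v‖ ^ 2) • v)
  · rw [Set.mem_ofPred_eq, inner_add_right, real_inner_smul_right, hself]
    field_simp; ring
  · rw [Metric.mem_ball, dist_eq_norm, add_sub_cancel_left, norm_smul, Real.norm_eq_abs]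
    have e1 : t - inner ℝ v z = ‖v‖ * (1 / 2 - inner ℝ (z - x) u) := by
      rw [ht, hvz]; ring
    rw [e1]
    have e2 : ‖v‖ * (1 / 2 - inner ℝ (z - x) u) / ‖v‖ ^ 2 = (1 / 2 - inner ℝ (z - x) u) / ‖v‖ := by
      field_simp
    rw [e2, abs_div, abs_of_pos hvn, div_mul_cancel₀ _ hvn.ne', abs_lt]
    constructor <;> linarith

/-- a choice of sign for nonzero vectors -/
def pos (w : E3) : Prop := 0 < w 0 ∨ (w 0 = 0 ∧ 0 < w 1) ∨ (w 0 = 0 ∧ w 1 = 0 ∧ 0 < w 2)

lemma pos_or_neg {w : E3} (hw : w ≠ 0) : pos w ∨ pos (-w) := by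
  by_contra hcon
  rw [not_or] at hcon
  obtain ⟨h1, h2⟩ := hcon
  unfold pos at h1 h2
  push Not at h1 h2
  simp only [PiLp.neg_apply] at h2
  have a0 : w 0 = 0 := by linarith [h1.1, h2.1]
  have a1 : w 1 = 0 := by
    have := h1.2.1 a0
    have := h2.2.1 (by rw [a0]; simp)
    linarith
  have a2 : w 2 = 0 := by
    have := h1.2.2 a0 a1
    have := h2.2.2 (by rw [a0]; simp) (by rw [a1]; simp)
    linarith
  apply hw
  ext i
  fin_cases i
  · exact a0
  · exact a1
  · exact a2

lemma not_pos_neg {w : E3} (h : pos w) : ¬ pos (-w) := by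
  unfold pos at h ⊢
  simp only [PiLp.neg_apply]
  intro h'
  rcases h with h | ⟨h0, h1⟩ | ⟨h0, h1, h2⟩
  · rcases h' with h' | ⟨h'0, _⟩ | ⟨h'0, _⟩ <;> linarith
  · rcases h' with h' | ⟨h'0, h'⟩ | ⟨h'0, h', _⟩ <;> linarith
  · rcases h' with h' | ⟨h'0, h'⟩ | ⟨h'0, h', h''⟩ <;> linarith

open Classical in
/-- the positive contact directions -/
noncomputable def dirs (X : Finset E3) : Finset E3 :=
  ((X ×ˢ X).filter (fun p => dist p.1 p.2 = 1 ∧ pos (p.2 - p.1))).image (fun p => p.2 - p.1)

lemma mem_dirs {X : Finset E3} {d : E3} (hd : d ∈ dirs X) : ‖d‖ = 1 ∧ pos d := by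
  classical
  unfold dirs at hd
  rw [Finset.mem_image] at hd
  obtain ⟨p, hp, rfl⟩ := hd
  rw [Finset.mem_filter] at hp
  refine ⟨?_, hp.2.2⟩
  rw [← dist_eq_norm, dist_comm]; exact hp.2.1

lemma dirs_unit (X : Finset E3) : ∀ d ∈ dirs X, ‖d‖ = 1 := fun _ hd => (mem_dirs hd).1

lemma dirs_neg (X : Finset E3) : ∀ d ∈ dirs X, -d ∉ dirs X :=
  fun _ hd h => not_pos_neg (mem_dirs hd).2 (mem_dirs h).2

lemma contactPairs_finite (X : Finset E3) : (contactPairs X).Finite := by
  apply Set.Finite.subset ((X ×ˢ X).finite_toSet.image (fun p => s(p.1, p.2)))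
  rintro e ⟨x, hx, y, hy, -, -, rfl⟩
  exact ⟨(x, y), by simp [hx, hy], rfl⟩

open Classical in
/-- pairs (direction, point) -/
noncomputable def dp (X D : Finset E3) : Finset (E3 × E3) :=
  (D ×ˢ X).filter (fun p => p.2 + p.1 ∈ X)

lemma card_dp (X D : Finset E3) : (dp X D).card = cn X D := by
  classical
  unfold dp cn
  rw [Finset.card_filter, Finset.sum_product]
  apply Finset.sum_congr rfl
  intro d _
  rw [Finset.card_filter]
  apply Finset.sum_congr rfl
  intro y _
  by_cases h : y + d ∈ X <;> simp [h]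

lemma dp_injOn {X D : Finset E3} (hD2 : ∀ d ∈ D, -d ∉ D) :
    Set.InjOn (fun p : E3 × E3 => s(p.2, p.2 + p.1)) (dp X D) := by
  classical
  rintro ⟨d, x⟩ hp ⟨d', x'⟩ hp' h
  unfold dp at hp hp'
  simp only [Finset.coe_filter, Finset.mem_product, Set.mem_ofPred_eq] at hp hp'
  simp only [Sym2.eq, Sym2.rel_iff', Prod.mk.injEq, Prod.swap_prod_mk] at h
  rcases h with ⟨rfl, h2⟩ | ⟨h1, h2⟩
  · rw [add_left_cancel h2]
  · exfalso
    have : d = -d' := by
      have h3 : x + d = x' := h2
      rw [h1] at h3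
      have h4 : x' + (d' + d) = x' := by rw [← add_assoc]; exact h3
      have h5 : d' + d = 0 := by simpa using h4
      exact eq_neg_of_add_eq_zero_right h5
    exact hD2 d' hp'.1.1 (this ▸ hp.1.1)

lemma contactNumber_le {X : Finset E3} (h : IsPacking X) : contactNumber X ≤ cn X (dirs X) := by
  classical
  rw [← card_dp, ← Set.ncard_coe_finset, ← (dp_injOn (dirs_neg X)).ncard_image]
  unfold contactNumber
  apply Set.ncard_le_ncard _ ((dp X (dirs X)).finite_toSet.image _)
  rintro e ⟨x, hx, y, hy, hne, ht, rfl⟩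
  have hdist : dist x y = 1 := le_antisymm (touch_iff.mp ht) (h.one_le_dist hx hy hne)
  have hw : y - x ≠ 0 := sub_ne_zero.mpr hne.symm
  rcases pos_or_neg hw with hp | hp
  · refine ⟨(y - x, x), ?_, ?_⟩
    · unfold dp
      simp only [Finset.coe_filter, Finset.mem_product, Set.mem_ofPred_eq]
      refine ⟨⟨?_, hx⟩, by simpa using hy⟩
      unfold dirs
      exact Finset.mem_image.mpr ⟨(x, y), Finset.mem_filter.mpr
        ⟨Finset.mem_product.mpr ⟨hx, hy⟩, hdist, hp⟩, rfl⟩
    · simp
  · refine ⟨(x - y, y), ?_, ?_⟩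
    · unfold dp
      simp only [Finset.coe_filter, Finset.mem_product, Set.mem_ofPred_eq]
      refine ⟨⟨?_, hy⟩, by simpa using hx⟩
      unfold dirs
      refine Finset.mem_image.mpr ⟨(y, x), Finset.mem_filter.mpr
        ⟨Finset.mem_product.mpr ⟨hy, hx⟩, ?_, ?_⟩, rfl⟩
      · rw [dist_comm]; exact hdist
      · rwa [neg_sub] at hp
    · simp only [add_sub_cancel]
      exact Sym2.eq_swap

lemma le_contactNumber {X D : Finset E3} (hD : ∀ d ∈ D, ‖d‖ = 1) (hD2 : ∀ d ∈ D, -d ∉ D) :
    cn X D ≤ contactNumber X := by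
  classical
  rw [← card_dp, ← Set.ncard_coe_finset, ← (dp_injOn hD2).ncard_image]
  unfold contactNumber
  apply Set.ncard_le_ncard _ (contactPairs_finite X)
  rintro e ⟨⟨d, x⟩, hp, rfl⟩
  unfold dp at hp
  simp only [Finset.coe_filter, Finset.mem_product, Set.mem_ofPred_eq] at hp
  obtain ⟨⟨hd, hx⟩, hxd⟩ := hp
  refine ⟨x, hx, x + d, hxd, ?_, ?_, rfl⟩
  · intro h
    have h0 : d = 0 := by simpa using h.symm
    have := hD d hd
    rw [h0, norm_zero] at this
    norm_num at this
  · rw [touch_iff, dist_eq_norm]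
    simp [hD d hd]

/-- the finite upper bound on the contact number -/
theorem upper {X : Finset E3} (h : IsPacking X) (hs : IsTotallySeparable X) (hne : X.Nonempty)
    (s : ℝ) (hs0 : 0 < s) (hs1 : s ≤ 1) (hlog : Real.log X.card = -3 * Real.log s) :
    3 * X.card * s ≤ (3 * X.card - contactNumber X) * (1 + 16 * s) := by
  have h1 := main_ineq X (dirs X) (dirs_unit X) (dirs_neg X) hs.cs hne
    (g1 (dirs_unit X) (dirs_neg X) hs.cs) (g2 (dirs_unit X) (dirs_neg X) hs.cs)
    (g4 (dirs_unit X) (dirs_neg X) hs.cs) s hs0 hs1 hlog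
  have h2 : (contactNumber X : ℝ) ≤ cn X (dirs X) := by exact_mod_cast contactNumber_le h
  have h3 : (3 * (X.card : ℝ) - cn X (dirs X)) * (1 + 16 * s) ≤
      (3 * X.card - contactNumber X) * (1 + 16 * s) := by
    apply mul_le_mul_of_nonneg_right _ (by positivity)
    linarith
  linarith


end Packings

section Digital

/-- the lattice point with natural coordinates w -/
noncomputable def emb (w : Fin 3 → ℕ) : E3 := WithLp.toLp 2 (fun a => (w a : ℝ))

/-- standard unit vector -/
noncomputable def ax (a : Fin 3) : E3 := EuclideanSpace.single a (1 : ℝ)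

lemma emb_apply (w : Fin 3 → ℕ) (a : Fin 3) : emb w a = w a := rfl

lemma ax_norm (a : Fin 3) : ‖ax a‖ = 1 := by unfold ax; simp

lemma emb_injective : Function.Injective emb := by
  intro v w h
  ext a
  have := congrArg (fun x : E3 => x a) h
  simp only [emb_apply] at this
  exact_mod_cast this

lemma emb_sub_ax {w : Fin 3 → ℕ} {a : Fin 3} (h : 1 ≤ w a) :
    emb (Function.update w a (w a - 1)) + ax a = emb w := by
  ext b
  unfold ax
  rw [PiLp.add_apply, emb_apply, emb_apply, PiLp.single_apply]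
  by_cases hb : b = a
  · subst hb
    rw [Function.update_self, if_pos rfl]
    rw [Nat.cast_sub h]; push_cast; ring
  · rw [Function.update_of_ne hb, if_neg hb, add_zero]

lemma inner_ax (a : Fin 3) (p : E3) : inner ℝ (ax a) p = p a := by
  unfold ax
  rw [EuclideanSpace.inner_single_left]; simp

lemma abs_coord_le (p q : E3) (a : Fin 3) : |p a - q a| ≤ dist p q := by
  rw [dist_eq_norm, ← Real.norm_eq_abs]
  exact PiLp.norm_apply_le (p - q) a

lemma emb_dist {v w : Fin 3 → ℕ} (h : v ≠ w) : 1 ≤ dist (emb v) (emb w) := by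
  obtain ⟨a, ha⟩ := Function.ne_iff.mp h
  refine le_trans ?_ (abs_coord_le (emb v) (emb w) a)
  rw [emb_apply, emb_apply]
  rcases lt_or_gt_of_ne ha with h | h
  · have : (v a : ℝ) + 1 ≤ w a := by exact_mod_cast h
    rw [abs_sub_comm]
    exact le_trans (by linarith) (le_abs_self _)
  · have : (w a : ℝ) + 1 ≤ v a := by exact_mod_cast h
    exact le_trans (by linarith) (le_abs_self _)

lemma digital_packing (S : Finset (Fin 3 → ℕ)) : IsPacking (S.map ⟨emb, emb_injective⟩) := by
  intro x hx y hy hne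
  rw [Finset.mem_map] at hx hy
  obtain ⟨v, hv, rfl⟩ := hx
  obtain ⟨w, hw, rfl⟩ := hy
  rw [interior_closedBall _ (by norm_num), interior_closedBall _ (by norm_num),
    disjoint_ball_ball_iff (by norm_num) (by norm_num)]
  have : v ≠ w := by rintro rfl; exact hne rfl
  have := emb_dist this
  simp only [Function.Embedding.coeFn_mk]
  linarith

lemma digital_sep (S : Finset (Fin 3 → ℕ)) : IsTotallySeparable (S.map ⟨emb, emb_injective⟩) := by
  intro x hx y hy hne
  rw [Finset.mem_map] at hx hy
  obtain ⟨v, hv, rfl⟩ := hx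
  obtain ⟨w, hw, rfl⟩ := hy
  simp only [Function.Embedding.coeFn_mk] at hne ⊢
  have hvw : v ≠ w := by rintro rfl; exact hne rfl
  obtain ⟨a, ha⟩ := Function.ne_iff.mp hvw
  have hax : ax a ≠ 0 := by
    intro h; have := ax_norm a; rw [h, norm_zero] at this; norm_num at this
  have hcoord : ∀ (u : Fin 3 → ℕ) (p : E3), dist p (emb u) ≤ 1 / 2 →
      (u a : ℝ) - 1 / 2 ≤ p a ∧ p a ≤ u a + 1 / 2 := by
    intro u p hp
    have := (abs_coord_le p (emb u) a).trans hp
    rw [emb_apply, abs_le] at this
    constructor <;> linarith [this.1, this.2]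
  have hcoord' : ∀ (u : Fin 3 → ℕ) (p : E3), dist p (emb u) < 1 / 2 →
      (u a : ℝ) - 1 / 2 < p a ∧ p a < u a + 1 / 2 := by
    intro u p hp
    have := (abs_coord_le p (emb u) a).trans_lt hp
    rw [emb_apply, abs_lt] at this
    constructor <;> linarith [this.1, this.2]
  rcases lt_or_gt_of_ne ha with h | h
  · refine ⟨ax a, v a + 1 / 2, hax, ?_, ?_, ?_⟩
    · intro p hp
      rw [inner_ax]
      exact (hcoord v p hp).2
    · intro p hp
      rw [inner_ax]
      have h1 := (hcoord w p hp).1
      have h2 : (v a : ℝ) + 1 ≤ w a := by exact_mod_cast h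
      linarith
    · intro z hz
      rw [Finset.mem_map] at hz
      obtain ⟨u, -, rfl⟩ := hz
      rw [interior_closedBall _ (by norm_num), Set.disjoint_left]
      intro p hp hpu
      rw [Set.mem_ofPred_eq, inner_ax] at hp
      have h1 := hcoord' u p (Metric.mem_ball.mp hpu)
      rw [hp] at h1
      have h2 : (u a : ℝ) < v a + 1 := by linarith [h1.1]
      have h3 : (v a : ℝ) < u a := by linarith [h1.2]
      have h2' : u a < v a + 1 := by exact_mod_cast h2
      have h3' : v a < u a := by exact_mod_cast h3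
      omega
  · refine ⟨-ax a, -(w a + 1 / 2), neg_ne_zero.mpr hax, ?_, ?_, ?_⟩
    · intro p hp
      rw [inner_neg_left, inner_ax]
      have h1 := (hcoord v p hp).1
      have h2 : (w a : ℝ) + 1 ≤ v a := by exact_mod_cast h
      linarith
    · intro p hp
      rw [inner_neg_left, inner_ax]
      have h1 := (hcoord w p hp).2
      linarith
    · intro z hz
      rw [Finset.mem_map] at hz
      obtain ⟨u, -, rfl⟩ := hz
      rw [interior_closedBall _ (by norm_num), Set.disjoint_left]
      intro p hp hpu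
      rw [Set.mem_ofPred_eq, inner_neg_left, inner_ax, neg_inj] at hp
      have h1 := hcoord' u p (Metric.mem_ball.mp hpu)
      rw [hp] at h1
      have h2 : (u a : ℝ) < w a + 1 := by linarith [h1.1]
      have h3 : (w a : ℝ) < u a := by linarith [h1.2]
      have h2' : u a < w a + 1 := by exact_mod_cast h2
      have h3' : w a < u a := by exact_mod_cast h3
      omega

/-- the discrete box -/
def box (k : ℕ) : Finset (Fin 3 → ℕ) := Fintype.piFinset (fun _ => Finset.range k)

lemma card_box (k : ℕ) : (box k).card = k ^ 3 := by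
  unfold box
  rw [Fintype.card_piFinset]
  simp

/-- down-closed sets of lattice points -/
def DownClosed (S : Finset (Fin 3 → ℕ)) : Prop :=
  ∀ w ∈ S, ∀ a, 1 ≤ w a → Function.update w a (w a - 1) ∈ S

lemma box_downClosed (k : ℕ) : DownClosed (box k) := by
  intro w hw a ha
  unfold box at hw ⊢
  rw [Fintype.mem_piFinset] at hw ⊢
  intro b
  by_cases hb : b = a
  · subst hb
    rw [Function.update_self]
    have := hw b
    rw [Finset.mem_range] at this ⊢
    omega
  · rw [Function.update_of_ne hb]; exact hw b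

lemma sum_update {w : Fin 3 → ℕ} {a : Fin 3} (h : 1 ≤ w a) :
    ∑ b, Function.update w a (w a - 1) b < ∑ b, w b := by
  apply Finset.sum_lt_sum
  · intro b _
    by_cases hb : b = a
    · subst hb; rw [Function.update_self]; omega
    · rw [Function.update_of_ne hb]
  · exact ⟨a, Finset.mem_univ _, by rw [Function.update_self]; omega⟩

lemma exists_downClosed (k : ℕ) : ∀ m ≤ k ^ 3, ∃ S ⊆ box k, DownClosed S ∧ S.card = k ^ 3 - m := by
  intro m
  induction m with
  | zero => intro _; exact ⟨box k, subset_rfl, box_downClosed k, by rw [card_box]; rfl⟩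
  | succ m ih =>
    intro hm
    obtain ⟨S, hS, hdc, hcard⟩ := ih (by omega)
    have hne : S.Nonempty := by
      rw [← Finset.card_pos]; omega
    obtain ⟨v, hv, hmax⟩ := Finset.exists_max_image S (fun w => ∑ b, w b) hne
    refine ⟨S.erase v, (Finset.erase_subset _ _).trans hS, ?_, ?_⟩
    · intro w hw a ha
      rw [Finset.mem_erase] at hw ⊢
      refine ⟨?_, hdc w hw.2 a ha⟩
      intro h
      have h1 := sum_update ha
      rw [h] at h1
      have h2 := hmax w hw.2
      omega
    · rw [Finset.card_erase_of_mem hv, hcard]; omega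

/-- axis directions -/
noncomputable def axes : Finset E3 := by
  classical exact Finset.univ.image ax

lemma mem_axes {d : E3} : d ∈ axes ↔ ∃ a, ax a = d := by
  classical
  unfold axes
  simp

lemma axes_unit : ∀ d ∈ axes, ‖d‖ = 1 := by
  intro d hd
  obtain ⟨a, rfl⟩ := mem_axes.mp hd
  exact ax_norm a

lemma axes_neg : ∀ d ∈ axes, -d ∉ axes := by
  intro d hd h
  obtain ⟨a, rfl⟩ := mem_axes.mp hd
  obtain ⟨b, hb⟩ := mem_axes.mp h
  have h1 := congrArg (fun x : E3 => x a) hb
  simp only [PiLp.neg_apply] at h1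
  unfold ax at h1
  rw [PiLp.single_apply, PiLp.single_apply, if_pos rfl] at h1
  split_ifs at h1 <;> norm_num at h1

lemma ax_injective : Function.Injective ax := by
  intro a b h
  have h1 := congrArg (fun x : E3 => x a) h
  unfold ax at h1
  simp only [PiLp.single_apply, if_true] at h1
  by_contra hne
  rw [if_neg hne] at h1
  norm_num at h1

lemma card_zero_coord {k : ℕ} {S : Finset (Fin 3 → ℕ)} (hS : S ⊆ box k) (a : Fin 3) :
    (S.filter (fun w => ¬ 1 ≤ w a)).card ≤ k ^ 2 := by
  have hsub : S.filter (fun w => ¬ 1 ≤ w a) ⊆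
      Fintype.piFinset (fun b => if b = a then {0} else Finset.range k) := by
    intro w hw
    rw [Finset.mem_filter] at hw
    rw [Fintype.mem_piFinset]
    intro b
    by_cases hb : b = a
    · subst hb; rw [if_pos rfl, Finset.mem_singleton]; omega
    · rw [if_neg hb]
      have := hS hw.1
      unfold box at this
      exact (Fintype.mem_piFinset.mp this) b
  refine (Finset.card_le_card hsub).trans ?_
  rw [Fintype.card_piFinset]
  have : ∀ b : Fin 3, (if b = a then ({0} : Finset ℕ) else Finset.range k).card =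
      if b = a then 1 else k := by
    intro b; split_ifs <;> simp
  simp only [this]
  fin_cases a <;> simp [Fin.prod_univ_three, pow_two]

lemma digital_contacts {k : ℕ} {S : Finset (Fin 3 → ℕ)} (hS : S ⊆ box k) (hd : DownClosed S) :
    3 * S.card ≤ contactNumber (S.map ⟨emb, emb_injective⟩) + 3 * k ^ 2 := by
  classical
  set X := S.map ⟨emb, emb_injective⟩ with hX
  have h1 := le_contactNumber (X := X) axes_unit axes_neg
  have h2 : ∀ d ∈ axes, S.card ≤ (X.filter (fun x => x + d ∈ X)).card + k ^ 2 := by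
    intro d hd'
    obtain ⟨a, rfl⟩ := mem_axes.mp hd'
    have h3 := card_zero_coord hS a
    have h4 : (S.filter (fun w => 1 ≤ w a)).card ≤ (X.filter (fun x => x + ax a ∈ X)).card := by
      apply Finset.card_le_card_of_injOn
        (fun w : Fin 3 → ℕ => emb (Function.update w a (w a - 1)))
      · intro w hw
        simp only [Finset.coe_filter, Set.mem_ofPred_eq] at hw ⊢
        rw [emb_sub_ax hw.2]
        constructor
        · exact Finset.mem_map_of_mem ⟨emb, emb_injective⟩ (hd w hw.1 a hw.2)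
        · exact Finset.mem_map_of_mem ⟨emb, emb_injective⟩ hw.1
      · intro w hw w' hw' h
        simp only [Finset.coe_filter, Set.mem_ofPred_eq] at hw hw'
        have h5 : emb (Function.update w a (w a - 1)) + ax a =
            emb (Function.update w' a (w' a - 1)) + ax a := by
          simp only at h; rw [h]
        rw [emb_sub_ax hw.2, emb_sub_ax hw'.2] at h5
        exact emb_injective h5
    have h5 : (S.filter (fun w => 1 ≤ w a)).card + (S.filter (fun w => ¬ 1 ≤ w a)).card = S.card :=
      Finset.card_filter_add_card_filter_not (fun w : Fin 3 → ℕ => 1 ≤ w a)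
    omega
  have h3 : ∑ d ∈ axes, S.card ≤ ∑ d ∈ axes, ((X.filter (fun x => x + d ∈ X)).card + k ^ 2) :=
    Finset.sum_le_sum h2
  have h4 : axes.card = 3 := by
    have : axes = Finset.univ.image ax := by ext d; rw [mem_axes]; simp
    rw [this, Finset.card_image_of_injective _ ax_injective]; simp
  rw [Finset.sum_const, Finset.sum_add_distrib, Finset.sum_const, h4, smul_eq_mul, smul_eq_mul] at h3
  have h5 : ∑ d ∈ axes, (X.filter (fun x => x + d ∈ X)).card = cn X axes := by
    unfold cn
    apply Finset.sum_congr rfl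
    intro d _
    congr 1
    ext x
    simp only [Finset.mem_filter]
  rw [h5] at h3
  omega

end Digital

/-- all contact numbers of totally separable packings of n balls of diameter one -/
def contactNumbers (n : ℕ) : Set ℕ :=
  {m | ∃ X : Finset E3, X.card = n ∧ IsPacking X ∧ IsTotallySeparable X ∧ contactNumber X = m}

/-- the largest contact number -/
noncomputable def cSep (n : ℕ) : ℕ := sSup (contactNumbers n)

section Limit

lemma s_props {n : ℕ} (hn : 1 ≤ n) : 0 < (n : ℝ) ^ (-(1 / 3) : ℝ) ∧ (n : ℝ) ^ (-(1 / 3) : ℝ) ≤ 1 ∧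
    Real.log n = -3 * Real.log ((n : ℝ) ^ (-(1 / 3) : ℝ)) := by
  have hn0 : (0 : ℝ) < n := by exact_mod_cast hn
  have hn1 : (1 : ℝ) ≤ n := by exact_mod_cast hn
  refine ⟨Real.rpow_pos_of_pos hn0 _, ?_, ?_⟩
  · exact Real.rpow_le_one_of_one_le_of_nonpos hn1 (by norm_num)
  · rw [Real.log_rpow hn0]; ring

lemma upper_n {n m : ℕ} (hn : 1 ≤ n) (hm : m ∈ contactNumbers n) :
    3 * (n : ℝ) * (n : ℝ) ^ (-(1 / 3) : ℝ) ≤ (3 * n - m) * (1 + 16 * (n : ℝ) ^ (-(1 / 3) : ℝ)) := by
  obtain ⟨X, hc, hp, hs, rfl⟩ := hm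
  obtain ⟨h1, h2, h3⟩ := s_props hn
  have hne : X.Nonempty := by rw [← Finset.card_pos]; omega
  have := upper hp hs hne ((n : ℝ) ^ (-(1 / 3) : ℝ)) h1 h2 (by rw [hc]; exact h3)
  rwa [hc] at this

lemma bdd {n : ℕ} (hn : 1 ≤ n) : BddAbove (contactNumbers n) := by
  refine ⟨3 * n, fun m hm => ?_⟩
  have h := upper_n hn hm
  obtain ⟨h1, -, -⟩ := s_props hn
  have hn0 : (0 : ℝ) < n := by exact_mod_cast hn
  have h2 : 0 < (3 * (n : ℝ) - m) * (1 + 16 * (n : ℝ) ^ (-(1 / 3) : ℝ)) :=
    lt_of_lt_of_le (by positivity) h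
  have h3 : 0 < 3 * (n : ℝ) - m := by
    by_contra hcon
    push Not at hcon
    have : (3 * (n : ℝ) - m) * (1 + 16 * (n : ℝ) ^ (-(1 / 3) : ℝ)) ≤ 0 :=
      mul_nonpos_of_nonpos_of_nonneg hcon (by positivity)
    linarith
  have h4 : (m : ℝ) ≤ 3 * n := by linarith
  exact_mod_cast h4

lemma exists_contact {n k : ℕ} (hk : n ≤ k ^ 3) :
    ∃ m ∈ contactNumbers n, 3 * n ≤ m + 3 * k ^ 2 := by
  obtain ⟨S, hS, hd, hc⟩ := exists_downClosed k (k ^ 3 - n) (by omega)
  have hc' : S.card = n := by omega
  refine ⟨_, ⟨S.map ⟨emb, emb_injective⟩, by rw [Finset.card_map, hc'], digital_packing S,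
    digital_sep S, rfl⟩, ?_⟩
  have := digital_contacts hS hd
  rw [hc'] at this
  exact this

theorem isGreatest_cSep {n : ℕ} (hn : 1 ≤ n) : IsGreatest (contactNumbers n) (cSep n) := by
  have hne : (contactNumbers n).Nonempty := by
    obtain ⟨m, hm, -⟩ := exists_contact (n := n) (k := n) (by
      calc n = n ^ 1 := (pow_one n).symm
        _ ≤ n ^ 3 := Nat.pow_le_pow_right hn (by norm_num))
    exact ⟨m, hm⟩
  exact ⟨Nat.sSup_mem hne (bdd hn), fun m hm => le_csSup (bdd hn) hm⟩

theorem limit : Tendsto (fun n : ℕ => (3 * (n : ℝ) - cSep n) / (n : ℝ) ^ (2 / 3 : ℝ)) atTop (𝓝 3) := by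
  have hs : Tendsto (fun n : ℕ => (n : ℝ) ^ (-(1 / 3) : ℝ)) atTop (𝓝 0) :=
    (tendsto_rpow_neg_atTop (by norm_num)).comp tendsto_natCast_atTop_atTop
  have hlow : Tendsto (fun n : ℕ => 3 / (1 + 16 * (n : ℝ) ^ (-(1 / 3) : ℝ))) atTop (𝓝 3) := by
    have : Tendsto (fun n : ℕ => 3 / (1 + 16 * (n : ℝ) ^ (-(1 / 3) : ℝ))) atTop
        (𝓝 (3 / (1 + 16 * 0))) := by
      apply Tendsto.div tendsto_const_nhds _ (by norm_num)
      exact (hs.const_mul 16).const_add 1
    simpa using this
  have hup : Tendsto (fun n : ℕ => 3 * (1 + (n : ℝ) ^ (-(1 / 3) : ℝ)) ^ 2) atTop (𝓝 3) := by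
    have : Tendsto (fun n : ℕ => 3 * (1 + (n : ℝ) ^ (-(1 / 3) : ℝ)) ^ 2) atTop
        (𝓝 (3 * (1 + 0) ^ 2)) := ((hs.const_add 1).pow 2).const_mul 3
    simpa using this
  refine tendsto_of_tendsto_of_tendsto_of_le_of_le' hlow hup ?_ ?_
  · filter_upwards [eventually_ge_atTop 1] with n hn
    have hn0 : (0 : ℝ) < n := by exact_mod_cast hn
    have h := upper_n hn (isGreatest_cSep hn).1
    obtain ⟨h1, -, -⟩ := s_props hn
    have h23 : 0 < (n : ℝ) ^ (2 / 3 : ℝ) := Real.rpow_pos_of_pos hn0 _
    have e : (n : ℝ) * (n : ℝ) ^ (-(1 / 3) : ℝ) = (n : ℝ) ^ (2 / 3 : ℝ) := by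
      nth_rewrite 1 [← Real.rpow_one (n : ℝ)]
      rw [← Real.rpow_add hn0]; norm_num
    rw [div_le_div_iff₀ (by positivity) h23]
    rw [← e]; linarith
  · filter_upwards [eventually_ge_atTop 1] with n hn
    have hn0 : (0 : ℝ) < n := by exact_mod_cast hn
    have h13 : 0 < (n : ℝ) ^ (1 / 3 : ℝ) := Real.rpow_pos_of_pos hn0 _
    set k := ⌈(n : ℝ) ^ (1 / 3 : ℝ)⌉₊ with hk
    have hk1 : (n : ℝ) ^ (1 / 3 : ℝ) ≤ k := Nat.le_ceil _
    have hk2 : (k : ℝ) < (n : ℝ) ^ (1 / 3 : ℝ) + 1 := Nat.ceil_lt_add_one h13.le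
    have e3 : ((n : ℝ) ^ (1 / 3 : ℝ)) ^ 3 = n := by
      rw [← Real.rpow_natCast, ← Real.rpow_mul hn0.le]; norm_num
    have hnk : n ≤ k ^ 3 := by
      have : (n : ℝ) ≤ (k : ℝ) ^ 3 := by
        rw [← e3]
        exact pow_le_pow_left₀ h13.le hk1 3
      exact_mod_cast this
    obtain ⟨m, hm, hmk⟩ := exists_contact hnk
    have hmc : m ≤ cSep n := (isGreatest_cSep hn).2 hm
    have h3 : 3 * (n : ℝ) ≤ cSep n + 3 * (k : ℝ) ^ 2 := by
      have : 3 * n ≤ cSep n + 3 * k ^ 2 := by omega
      exact_mod_cast this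
    have h23 : 0 < (n : ℝ) ^ (2 / 3 : ℝ) := Real.rpow_pos_of_pos hn0 _
    rw [div_le_iff₀ h23]
    have e2 : (n : ℝ) ^ (2 / 3 : ℝ) = ((n : ℝ) ^ (1 / 3 : ℝ)) ^ 2 := by
      rw [← Real.rpow_natCast, ← Real.rpow_mul hn0.le]; norm_num
    have e1 : (n : ℝ) ^ (1 / 3 : ℝ) * (n : ℝ) ^ (-(1 / 3) : ℝ) = 1 := by
      rw [← Real.rpow_add hn0]; norm_num
    have hk3 : (k : ℝ) ^ 2 ≤ ((n : ℝ) ^ (1 / 3 : ℝ) + 1) ^ 2 :=
      pow_le_pow_left₀ (by positivity) hk2.le 2
    calc 3 * (n : ℝ) - cSep n ≤ 3 * (k : ℝ) ^ 2 := by linarith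
      _ ≤ 3 * ((n : ℝ) ^ (1 / 3 : ℝ) + 1) ^ 2 := by linarith
      _ = 3 * ((n : ℝ) ^ (1 / 3 : ℝ) + (n : ℝ) ^ (1 / 3 : ℝ) * (n : ℝ) ^ (-(1 / 3) : ℝ)) ^ 2 := by
          rw [e1]
      _ = 3 * (1 + (n : ℝ) ^ (-(1 / 3) : ℝ)) ^ 2 * (n : ℝ) ^ (2 / 3 : ℝ) := by
          rw [e2]; ring

end Limit

/-- Q1: the largest contact number of a totally separable packing of n balls of diameter one in
three-space is a maximum, and (3 n - cSep n) / n ^ (2/3) tends to 3. -/
theorem result :
    (∀ n : ℕ, 1 ≤ n → IsGreatest (contactNumbers n) (cSep n)) ∧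
      Tendsto (fun n : ℕ => (3 * (n : ℝ) - (cSep n : ℝ)) / (n : ℝ) ^ (2 / 3 : ℝ)) atTop (𝓝 3) :=
  ⟨fun _ hn => isGreatest_cSep hn, limit⟩

end Pool.Agent.Results.MP_3a09a4_co.SepContactLimit
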